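import Pool.Agent.H302Z.BSDefs

set_option autoImplicit false

open MeasureTheory Filter Topology Set Metric Complex
open scoped ENNReal

namespace Pool.Agent.H302Z.BS

/-- the singular inner factor -/
noncomputable def Sg (w : ℂ) : ℂ := cexp (-2 * ((1 + w) / (1 - w)))

/-- one variable function -/
noncomputable def F (w : ℂ) : ℂ := ((1 - w) / 2) ^ 6 * Sg w

/-- the example -/
noncomputable def f0 (z : ℂ × ℂ) : ℂ := F ((z.1 + z.2) / 2)

theorem re_cayley (w : ℂ) : ((1 + w) / (1 - w)).re = (1 - ‖w‖ ^ 2) / ‖1 - w‖ ^ 2 := by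
  rw [div_re, ← Complex.normSq_eq_norm_sq, ← Complex.normSq_eq_norm_sq, ← add_div]
  congr 1
  simp [normSq_apply]
  ring

theorem norm_Sg (w : ℂ) : ‖Sg w‖ = Real.exp (-2 * ((1 - ‖w‖ ^ 2) / ‖1 - w‖ ^ 2)) := by
  rw [Sg, norm_exp, ← re_cayley]
  congr 1
  simp

theorem norm_Sg_le {w : ℂ} (hw : ‖w‖ ≤ 1) : ‖Sg w‖ ≤ 1 := by
  rw [norm_Sg, Real.exp_le_one_iff]
  have h1 : 0 ≤ 1 - ‖w‖ ^ 2 := by nlinarith [norm_nonneg w]
  have : 0 ≤ (1 - ‖w‖ ^ 2) / ‖1 - w‖ ^ 2 := by positivity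
  linarith

theorem hasDerivAt_Sg {w : ℂ} (hw : w ≠ 1) :
    HasDerivAt Sg (Sg w * (-4 / (1 - w) ^ 2)) w := by
  have h0 : (1 - w) ≠ 0 := sub_ne_zero.2 hw.symm
  have h1 : HasDerivAt (fun w : ℂ => -2 * ((1 + w) / (1 - w))) (-4 / (1 - w) ^ 2) w := by
    have := (((hasDerivAt_id w).const_add 1).div ((hasDerivAt_id w).const_sub 1) h0).const_mul (-2)
    refine HasDerivAt.congr_deriv this ?_
    simp only [id]
    field_simp
    ring
  exact h1.cexp

theorem hasDerivAt_pow_Sg (k : ℕ) {w : ℂ} (hw : w ≠ 1) :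
    HasDerivAt (fun w => (1 - w) ^ (k + 2) * Sg w)
      (-((k : ℂ) + 2) * ((1 - w) ^ (k + 1) * Sg w) - 4 * ((1 - w) ^ k * Sg w)) w := by
  have h0 : (1 - w) ≠ 0 := sub_ne_zero.2 hw.symm
  have h1 := (((hasDerivAt_id w).const_sub 1).pow (k + 2)).mul (hasDerivAt_Sg hw)
  refine HasDerivAt.congr_deriv h1 ?_
  simp only [id, Pi.pow_apply, Nat.add_succ_sub_one]
  push_cast
  field_simp
  ring

noncomputable def F1 (w : ℂ) : ℂ := (-6 * ((1 - w) ^ 5 * Sg w) - 4 * ((1 - w) ^ 4 * Sg w)) / 64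
noncomputable def F2 (w : ℂ) : ℂ :=
  (30 * ((1 - w) ^ 4 * Sg w) + 40 * ((1 - w) ^ 3 * Sg w) + 16 * ((1 - w) ^ 2 * Sg w)) / 64
noncomputable def F3 (w : ℂ) : ℂ :=
  (-120 * (1 - w) ^ 3 - 240 * (1 - w) ^ 2 - 192 * (1 - w) - 64) * Sg w / 64

theorem dF {w : ℂ} (hw : w ≠ 1) : HasDerivAt F (F1 w) w := by
  have h := (hasDerivAt_pow_Sg 4 hw).div_const 64
  have e : F = fun x => (1 - x) ^ (4 + 2) * Sg x / 64 := by
    ext x; simp only [F]; ring
  rw [e]
  refine h.congr_deriv ?_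
  simp only [F1]; push_cast; ring

theorem dF1 {w : ℂ} (hw : w ≠ 1) : HasDerivAt F1 (F2 w) w := by
  have h := (((hasDerivAt_pow_Sg 3 hw).const_mul (-6)).sub
    ((hasDerivAt_pow_Sg 2 hw).const_mul 4)).div_const 64
  refine HasDerivAt.congr_deriv h ?_
  simp only [F2]; push_cast; ring

theorem dF2 {w : ℂ} (hw : w ≠ 1) : HasDerivAt F2 (F3 w) w := by
  have h := ((((hasDerivAt_pow_Sg 2 hw).const_mul 30).add
    ((hasDerivAt_pow_Sg 1 hw).const_mul 40)).add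
    ((hasDerivAt_pow_Sg 0 hw).const_mul 16)).div_const 64
  refine HasDerivAt.congr_deriv h ?_
  simp only [F3]; push_cast; ring

theorem diff_Sg {w : ℂ} (hw : w ≠ 1) : DifferentiableAt ℂ Sg w :=
  (hasDerivAt_Sg hw).differentiableAt

theorem diff_F3 {w : ℂ} (hw : w ≠ 1) : DifferentiableAt ℂ F3 w := by
  unfold F3
  have := diff_Sg hw
  fun_prop

theorem norm_F3_le {w : ℂ} (hw : ‖w‖ ≤ 1) : ‖F3 w‖ ≤ 37 := by
  have h1 : ‖1 - w‖ ≤ 2 := by
    have := norm_sub_le (1 : ℂ) w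
    simp only [norm_one] at this
    linarith
  have h0 := norm_nonneg (1 - w)
  have h2 : ‖-120 * (1 - w) ^ 3 - 240 * (1 - w) ^ 2 - 192 * (1 - w) - 64‖ ≤ 2368 := by
    have a1 := norm_sub_le (-120 * (1 - w) ^ 3 - 240 * (1 - w) ^ 2 - 192 * (1 - w)) (64 : ℂ)
    have a2 := norm_sub_le (-120 * (1 - w) ^ 3 - 240 * (1 - w) ^ 2) (192 * (1 - w))
    have a3 := norm_sub_le (-120 * (1 - w) ^ 3) (240 * (1 - w) ^ 2)
    simp only [norm_mul, norm_pow, norm_neg, Complex.norm_ofNat] at a1 a2 a3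
    have b3 : ‖1 - w‖ ^ 3 ≤ 2 ^ 3 := pow_le_pow_left₀ h0 h1 3
    have b2 : ‖1 - w‖ ^ 2 ≤ 2 ^ 2 := pow_le_pow_left₀ h0 h1 2
    linarith
  rw [F3, norm_div, norm_mul, Complex.norm_ofNat]
  have h3 := norm_Sg_le hw
  have := mul_le_mul h2 h3 (norm_nonneg _) (by norm_num)
  linarith

theorem iter3 (n : ℕ) : iteratedDeriv (n + 3) F 0 = iteratedDeriv n F3 0 := by
  have hne : ∀ᶠ w in 𝓝 (0 : ℂ), w ≠ 1 := isOpen_ne.mem_nhds (by simp)
  have e1 : deriv F =ᶠ[𝓝 0] F1 := hne.mono fun w hw => (dF hw).deriv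
  have e2 : deriv F1 =ᶠ[𝓝 0] F2 := hne.mono fun w hw => (dF1 hw).deriv
  have e3 : deriv F2 =ᶠ[𝓝 0] F3 := hne.mono fun w hw => (dF2 hw).deriv
  rw [iteratedDeriv_succ', e1.iteratedDeriv_eq, iteratedDeriv_succ', e2.iteratedDeriv_eq,
    iteratedDeriv_succ', e3.iteratedDeriv_eq]

theorem norm_iter_F3 (n : ℕ) : ‖iteratedDeriv n F3 0‖ ≤ n.factorial * 37 := by
  have h : ∀ r : ℝ, r ∈ Ioo (0 : ℝ) 1 → ‖iteratedDeriv n F3 0‖ ≤ n.factorial * 37 / r ^ n := by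
    intro r hr
    refine norm_iteratedDeriv_le_of_forall_mem_sphere_norm_le n hr.1 ?_ ?_
    · refine DifferentiableOn.diffContOnCl fun w hw => (diff_F3 ?_).differentiableWithinAt
      rintro rfl
      rw [closure_ball _ hr.1.ne'] at hw
      simp at hw
      linarith [hr.2]
    · intro z hz
      apply norm_F3_le
      simp at hz
      linarith [hr.2]
  have ht : Tendsto (fun r : ℝ => (n.factorial : ℝ) * 37 / r ^ n) (𝓝[<] 1)
      (𝓝 ((n.factorial : ℝ) * 37 / 1 ^ n)) := by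
    apply Tendsto.mono_left _ nhdsWithin_le_nhds
    exact ContinuousAt.tendsto (by fun_prop (disch := simp))
  simp only [one_pow, div_one] at ht
  exact ge_of_tendsto ht (Filter.mem_of_superset (Ioo_mem_nhdsLT zero_lt_one) h)

/-- Taylor coefficients of `F` -/
noncomputable def cF (n : ℕ) : ℂ := (n.factorial : ℂ)⁻¹ * iteratedDeriv n F 0

theorem hasSum_F {w : ℂ} (hw : ‖w‖ < 1) : HasSum (fun n => cF n * w ^ n) (F w) := by
  have hd : DifferentiableOn ℂ F (ball 0 1) := fun x hx => by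
    refine (dF ?_).differentiableAt.differentiableWithinAt
    rintro rfl
    simp at hx
  have := hasSum_taylorSeries_on_ball hd (z := w) (by simpa using hw)
  have e : (fun n => cF n * w ^ n) =
      fun n : ℕ => (n.factorial : ℂ)⁻¹ • (w - 0) ^ n • iteratedDeriv n F 0 := by
    ext n
    simp only [cF, sub_zero, smul_eq_mul]
    ring
  rw [e]
  exact this

theorem cF_bound : ∃ M : ℝ, 0 ≤ M ∧ ∀ n : ℕ, ‖cF n‖ * ((n : ℝ) + 1) ^ 3 ≤ M := by
  refine ⟨37 * 64 + ‖cF 0‖ + 8 * ‖cF 1‖ + 27 * ‖cF 2‖, by positivity, fun n => ?_⟩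
  have p0 := norm_nonneg (cF 0)
  have p1 := norm_nonneg (cF 1)
  have p2 := norm_nonneg (cF 2)
  match n with
  | 0 => simp; linarith
  | 1 => norm_num; linarith
  | 2 => norm_num; linarith
  | n + 3 =>
    have h1 := norm_iter_F3 n
    have hf : ((n + 3).factorial : ℝ) = (n + 3) * ((n + 2) * ((n + 1) * n.factorial)) := by
      rw [Nat.factorial_succ, Nat.factorial_succ, Nat.factorial_succ]
      push_cast
      ring
    have hpos : (0 : ℝ) < n.factorial := by exact_mod_cast n.factorial_pos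
    have h2 : ‖cF (n + 3)‖ * (((n : ℝ) + 3) * ((n + 2) * (n + 1))) ≤ 37 := by
      rw [cF, norm_mul, norm_inv, Complex.norm_natCast, iter3, hf]
      have : ((((n : ℝ) + 3) * ((n + 2) * ((n + 1) * n.factorial)))⁻¹ * ‖iteratedDeriv n F3 0‖) *
          (((n : ℝ) + 3) * ((n + 2) * (n + 1))) = ‖iteratedDeriv n F3 0‖ / n.factorial := by
        field_simp
      rw [this, div_le_iff₀ hpos]
      linarith
    have h3 : (((n + 3 : ℕ) : ℝ) + 1) ^ 3 ≤ 64 * (((n : ℝ) + 3) * ((n + 2) * (n + 1))) := by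
      push_cast
      have : (0 : ℝ) ≤ n := Nat.cast_nonneg n
      nlinarith [mul_nonneg this this, mul_nonneg this (mul_nonneg this this)]
    have h4 := mul_le_mul_of_nonneg_left h3 (norm_nonneg (cF (n + 3)))
    nlinarith

/-- Taylor coefficients of `f0` -/
noncomputable def a0 (p : ℕ × ℕ) : ℂ :=
  cF (p.1 + p.2) * (((p.1 + p.2).choose p.1 : ℕ) : ℂ) / 2 ^ (p.1 + p.2)

theorem norm_a0_le (p : ℕ × ℕ) : ‖a0 p‖ ≤ ‖cF (p.1 + p.2)‖ := by
  rw [a0, norm_div, norm_mul, norm_pow, Complex.norm_natCast, Complex.norm_ofNat,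
    div_le_iff₀ (by positivity)]
  refine mul_le_mul_of_nonneg_left ?_ (norm_nonneg _)
  exact_mod_cast Nat.choose_le_two_pow _ _

theorem hasCoeff_f0 : HasCoeff f0 a0 := by
  rintro ⟨x, y⟩ ⟨hx, hy⟩
  simp only at hx hy
  obtain ⟨M, hM0, hM⟩ := cF_bound
  have hM' : ∀ n, ‖cF n‖ ≤ M := fun n => by
    have h1 : (1 : ℝ) ≤ ((n : ℝ) + 1) ^ 3 := one_le_pow₀ (by linarith [Nat.cast_nonneg (α := ℝ) n])
    nlinarith [hM n, norm_nonneg (cF n)]
  have hs : Summable (fun p : ℕ × ℕ => a0 p * x ^ p.1 * y ^ p.2) := by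
    refine Summable.of_norm_bounded (g := fun p : ℕ × ℕ => M * (‖x‖ ^ p.1 * ‖y‖ ^ p.2)) ?_ ?_
    · exact (Summable.mul_of_nonneg (summable_geometric_of_lt_one (norm_nonneg _) hx)
        (summable_geometric_of_lt_one (norm_nonneg _) hy) (fun _ => by positivity)
        (fun _ => by positivity)).mul_left M
    · intro p
      rw [norm_mul, norm_mul, norm_pow, norm_pow, mul_assoc]
      exact mul_le_mul_of_nonneg_right ((norm_a0_le p).trans (hM' _)) (by positivity)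
  have hu : ‖(x + y) / 2‖ < 1 := by
    rw [norm_div, Complex.norm_ofNat]
    linarith [norm_add_le x y]
  have h1 := hasSum_F hu
  have h2 : HasSum ((fun p : ℕ × ℕ => a0 p * x ^ p.1 * y ^ p.2) ∘
      Finset.HasAntidiagonal.sigmaAntidiagonalEquivProd)
      (∑' p : ℕ × ℕ, a0 p * x ^ p.1 * y ^ p.2) :=
    (Equiv.hasSum_iff _).2 hs.hasSum
  have h3 := h2.sigma (g := fun n => cF n * ((x + y) / 2) ^ n) (fun n => by
    have := hasSum_fintype (fun c : Finset.HasAntidiagonal.antidiagonal n =>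
      a0 c.1 * x ^ c.1.1 * y ^ c.1.2)
    have e : cF n * ((x + y) / 2) ^ n = ∑ c : Finset.HasAntidiagonal.antidiagonal n,
        a0 c.1 * x ^ c.1.1 * y ^ c.1.2 := by
      rw [Finset.sum_coe_sort (Finset.HasAntidiagonal.antidiagonal n)
        (fun c => a0 c * x ^ c.1 * y ^ c.2),
        div_pow, (Commute.all x y).add_pow', Finset.sum_div, Finset.mul_sum]
      refine Finset.sum_congr rfl fun c hc => ?_
      rw [Finset.HasAntidiagonal.mem_antidiagonal] at hc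
      simp only [a0, hc, nsmul_eq_mul]
      ring
    rw [e]
    exact this)
  have h4 := h1.unique h3
  have h5 : f0 (x, y) = F ((x + y) / 2) := rfl
  rw [h5, h4]
  exact hs.hasSum

theorem normSq_a0 : normSq a0 < ⊤ := by
  obtain ⟨M, hM0, hM⟩ := cF_bound
  have hs0 : Summable (fun n : ℕ => 1 / ((n : ℝ) + 1) ^ 2) := by
    have := (summable_nat_add_iff 1).2 (Real.summable_one_div_nat_pow.2 one_lt_two)
    simpa using this
  have hs : Summable (fun p : ℕ × ℕ => ((p.1 : ℝ) + 1) * ((p.2 : ℝ) + 1) * ‖a0 p‖ ^ 2) := by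
    refine Summable.of_nonneg_of_le (fun p => by positivity) (fun p => ?_)
      ((hs0.mul_of_nonneg hs0 (fun _ => by positivity) (fun _ => by positivity)).mul_left (M ^ 2))
    have h1 := hM (p.1 + p.2)
    have h2 := norm_a0_le p
    set k : ℝ := (p.1 : ℝ) + 1 with hk
    set l : ℝ := (p.2 : ℝ) + 1 with hl
    set N : ℝ := ((p.1 + p.2 : ℕ) : ℝ) + 1 with hN
    have k0 : 0 < k := by positivity
    have l0 : 0 < l := by positivity
    have kN : k ≤ N := by rw [hk, hN]; push_cast; linarith [Nat.cast_nonneg (α := ℝ) p.2]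
    have lN : l ≤ N := by rw [hl, hN]; push_cast; linarith [Nat.cast_nonneg (α := ℝ) p.1]
    have h3 : ‖a0 p‖ * N ^ 3 ≤ M := le_trans (by gcongr) h1
    have h4 : (‖a0 p‖ * N ^ 3) ^ 2 ≤ M ^ 2 := by gcongr
    have h5 : k ^ 3 * l ^ 3 ≤ N ^ 3 * N ^ 3 := by gcongr
    have h6 : ‖a0 p‖ ^ 2 * (k ^ 3 * l ^ 3) ≤ M ^ 2 := by
      calc ‖a0 p‖ ^ 2 * (k ^ 3 * l ^ 3) ≤ ‖a0 p‖ ^ 2 * (N ^ 3 * N ^ 3) := by gcongr
        _ = (‖a0 p‖ * N ^ 3) ^ 2 := by ring
        _ ≤ M ^ 2 := h4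
    have h7 : M ^ 2 * (1 / k ^ 2 * (1 / l ^ 2)) = M ^ 2 / (k ^ 2 * l ^ 2) := by field_simp
    rw [h7, le_div_iff₀ (by positivity)]
    calc k * l * ‖a0 p‖ ^ 2 * (k ^ 2 * l ^ 2) = ‖a0 p‖ ^ 2 * (k ^ 3 * l ^ 3) := by ring
      _ ≤ M ^ 2 := h6
  rw [normSq, ← ENNReal.ofReal_tsum_of_nonneg (fun p => by positivity) hs]
  exact ENNReal.ofReal_lt_top

theorem inDirichlet_f0 : InDirichlet f0 := ⟨a0, hasCoeff_f0, normSq_a0⟩

end Pool.Agent.H302Z.BS
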