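import Pool.Agent.H302Z.BSA

set_option autoImplicit false

open MeasureTheory Filter Topology Set Metric Complex
open scoped ENNReal

namespace Pool.Agent.H302Z.BS

theorem sq_summable {b : ℕ × ℕ → ℂ} (hb : normSq b < ENNReal.ofReal (1 / 100)) :
    Summable (fun p => ‖b p‖ ^ 2) ∧ ∑' p, ‖b p‖ ^ 2 ≤ 1 / 100 := by
  have h1 : ∑' p : ℕ × ℕ, ENNReal.ofReal (‖b p‖ ^ 2) ≤ normSq b := by
    refine ENNReal.tsum_le_tsum fun p => ENNReal.ofReal_le_ofReal ?_
    have k1 : (1 : ℝ) ≤ (p.1 : ℝ) + 1 := by linarith [Nat.cast_nonneg (α := ℝ) p.1]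
    have k2 : (1 : ℝ) ≤ (p.2 : ℝ) + 1 := by linarith [Nat.cast_nonneg (α := ℝ) p.2]
    have k3 : (1 : ℝ) ≤ ((p.1 : ℝ) + 1) * ((p.2 : ℝ) + 1) := one_le_mul_of_one_le_of_one_le k1 k2
    nlinarith [sq_nonneg ‖b p‖]
  have h2 := h1.trans_lt hb
  have hs : Summable (fun p => ‖b p‖ ^ 2) := by
    have := ENNReal.summable_toReal (h2.trans ENNReal.ofReal_lt_top).ne
    refine this.congr fun p => ?_
    rw [ENNReal.toReal_ofReal (by positivity)]
  refine ⟨hs, ?_⟩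
  rw [← ENNReal.ofReal_tsum_of_nonneg (fun p => by positivity) hs,
    ENNReal.ofReal_lt_ofReal_iff (by norm_num)] at h2
  exact h2.le

theorem eval_bound {h : ℂ × ℂ → ℂ} {b : ℕ × ℕ → ℂ} (hh : HasCoeff h b)
    (hb : normSq b < ENNReal.ofReal (1 / 100)) {w : ℂ} (hw : ‖w‖ < 1) :
    ‖h (w, w)‖ * (1 - ‖w‖ ^ 2) ≤ 1 / 10 := by
  obtain ⟨hs, hle⟩ := sq_summable hb
  have h1 := hh (w, w) ⟨hw, hw⟩
  set s : ℝ := ‖w‖ ^ 2 with hs'
  have s0 : 0 ≤ s := by positivity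
  have s1 : s < 1 := by rw [hs']; nlinarith [norm_nonneg w]
  have d0 : 0 < 1 - s := by linarith
  have hg := hasSum_geometric_of_lt_one s0 s1
  have hg2 : HasSum (fun p : ℕ × ℕ => s ^ p.1 * s ^ p.2) ((1 - s)⁻¹ * (1 - s)⁻¹) :=
    hg.mul hg (hg.summable.mul_of_nonneg hg.summable (fun _ => by positivity)
      (fun _ => by positivity))
  have h2 := (hs.hasSum.mul_left (5 / (1 - s))).add (hg2.mul_left ((1 - s) / 20))
  have h3 := h1.norm_le_of_bounded h2 (fun p => by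
    simp only [norm_mul, norm_pow]
    have e : s ^ p.1 * s ^ p.2 = (‖w‖ ^ p.1 * ‖w‖ ^ p.2) ^ 2 := by rw [hs']; ring
    rw [e, mul_assoc]
    set t := ‖w‖ ^ p.1 * ‖w‖ ^ p.2
    set u := ‖b p‖
    have : 5 / (1 - s) * u ^ 2 + (1 - s) / 20 * t ^ 2 - u * t =
        5 / (1 - s) * (u - (1 - s) / 10 * t) ^ 2 := by
      field_simp
      ring
    have h4 : 0 ≤ 5 / (1 - s) * (u - (1 - s) / 10 * t) ^ 2 := by positivity
    linarith)
  have h5 : 5 / (1 - s) * ∑' p, ‖b p‖ ^ 2 ≤ 5 / (1 - s) * (1 / 100) := by gcongr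
  have h6 : 5 / (1 - s) * (1 / 100) + (1 - s) / 20 * ((1 - s)⁻¹ * (1 - s)⁻¹) =
      (1 / 10) / (1 - s) := by
    field_simp
    ring
  rw [← le_div_iff₀ d0]
  linarith

theorem diff_eval (p : MvPolynomial (Fin 2) ℂ) :
    Differentiable ℂ (fun w : ℂ => MvPolynomial.eval ![w, w] p) := by
  induction p using MvPolynomial.induction_on with
  | C a => simp
  | add p q hp hq =>
    simp only [map_add]
    exact hp.add hq
  | mul_X p i hp =>
    simp only [map_mul, MvPolynomial.eval_X]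
    refine hp.mul ?_
    fin_cases i <;> simp

theorem not_cyclic_f0 : ¬ Cyclic f0 := by
  intro hc
  obtain ⟨p, b, hh, hb⟩ := hc (ENNReal.ofReal (1 / 100)) (by simp)
  set g : ℂ → ℂ := fun w => MvPolynomial.eval ![w, w] p * ((1 - w) / 2) ^ 6 with hg
  have hgd : Differentiable ℂ g := (diff_eval p).mul (by fun_prop)
  have hev : ∀ w : ℂ, ‖w‖ < 1 → ‖g w * Sg w - 1‖ * (1 - ‖w‖ ^ 2) ≤ 1 / 10 := by
    intro w hw
    have := eval_bound hh hb hw
    have e : (w + w) / 2 = w := by ring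
    simp only [f0, F, e] at this
    simpa only [hg, mul_assoc] using this
  have hmax : ‖(1 - (0 : ℂ)) ^ 2 * g 0‖ ≤ Real.exp 1 * (89 / 45) := by
    refine Complex.norm_le_of_forall_mem_frontier_norm_le (f := fun w => (1 - w) ^ 2 * g w)
      (U := ball (1 / 3 : ℂ) (2 / 3)) isBounded_ball
      (Differentiable.diffContOnCl (by fun_prop)) ?_ (subset_closure ?_)
    · intro w hw
      rw [frontier_ball _ (by norm_num), mem_sphere, dist_eq_norm] at hw
      by_cases h1 : w = 1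
      · subst h1
        simp only [sub_self, ne_eq, OfNat.ofNat_ne_zero, not_false_eq_true, zero_pow, zero_mul,
          norm_zero]
        positivity
      have hw2 : ‖w - 1 / 3‖ ^ 2 = (2 / 3) ^ 2 := by rw [hw]
      rw [Complex.sq_norm, normSq_apply] at hw2
      simp only [sub_re, sub_im, one_div] at hw2
      have r3 : ((3 : ℂ)⁻¹).re = 1 / 3 := by norm_num
      have i3 : ((3 : ℂ)⁻¹).im = 0 := by norm_num
      rw [r3, i3] at hw2
      have e1 : ‖w‖ ^ 2 = w.re * w.re + w.im * w.im := by rw [Complex.sq_norm, normSq_apply]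
      have e2 : ‖1 - w‖ ^ 2 = (1 - w.re) * (1 - w.re) + w.im * w.im := by
        rw [Complex.sq_norm, normSq_apply]
        simp
      have e3 : 1 - ‖w‖ ^ 2 = ‖1 - w‖ ^ 2 / 2 := by rw [e1, e2]; nlinarith
      have p1 : 0 < ‖1 - w‖ := norm_pos_iff.2 (sub_ne_zero.2 (Ne.symm h1))
      have p2 : 0 < ‖1 - w‖ ^ 2 := by positivity
      have hw1 : ‖w‖ < 1 := by nlinarith [norm_nonneg w]
      have e4 : ‖1 - w‖ ^ 2 ≤ 16 / 9 := by rw [e2]; nlinarith [sq_nonneg w.im, sq_nonneg (w.re + 1 / 3)]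
      have e5 : ‖Sg w‖ = Real.exp (-1) := by
        rw [norm_Sg, e3]
        congr 1
        field_simp
      have h2 := hev w hw1
      have h3 : ‖g w * Sg w‖ ≤ ‖g w * Sg w - 1‖ + 1 := by
        have := norm_add_le (g w * Sg w - 1) 1
        simpa using this
      rw [norm_mul, e5] at h3
      rw [e3] at h2
      have h4 : ‖1 - w‖ ^ 2 * (‖g w‖ * Real.exp (-1)) ≤ 89 / 45 := by nlinarith
      have e6 : Real.exp 1 * Real.exp (-1) = 1 := by rw [← Real.exp_add]; simp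
      rw [norm_mul, norm_pow]
      calc ‖1 - w‖ ^ 2 * ‖g w‖ = Real.exp 1 * (‖1 - w‖ ^ 2 * (‖g w‖ * Real.exp (-1))) := by
            linear_combination (-(‖1 - w‖ ^ 2 * ‖g w‖)) * e6
        _ ≤ Real.exp 1 * (89 / 45) := by gcongr
    · rw [mem_ball, dist_eq_norm]
      norm_num
  have h0 := hev 0 (by simp)
  have h3 : (1 : ℝ) ≤ ‖g 0 * Sg 0 - 1‖ + ‖g 0 * Sg 0‖ := by
    have := norm_sub_le (g 0 * Sg 0) (g 0 * Sg 0 - 1)
    simp only [sub_sub_cancel, norm_one] at this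
    linarith
  have e5 : ‖Sg 0‖ = Real.exp (-1) * Real.exp (-1) := by
    rw [norm_Sg, ← Real.exp_add]
    congr 1
    norm_num
  rw [norm_mul, e5] at h3
  simp only [sub_zero, one_pow, one_mul, norm_zero, ne_eq, OfNat.ofNat_ne_zero, not_false_eq_true,
    zero_pow, mul_one] at hmax h0
  have e6 : Real.exp 1 * Real.exp (-1) = 1 := by rw [← Real.exp_add]; simp
  have e7 : Real.exp (-1) < 0.37 := by
    have := Real.exp_one_gt_d9
    nlinarith [Real.exp_pos (-1)]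
  have p7 := Real.exp_pos (-1)
  have h8 : ‖g 0‖ * (Real.exp (-1) * Real.exp (-1)) ≤
      Real.exp 1 * (89 / 45) * (Real.exp (-1) * Real.exp (-1)) := by gcongr
  have h9 : Real.exp 1 * (89 / 45) * (Real.exp (-1) * Real.exp (-1)) =
      (89 / 45) * Real.exp (-1) := by
    linear_combination (89 / 45 * Real.exp (-1)) * e6
  linarith

theorem F_ne_zero {w : ℂ} (hw : w ≠ 1) : F w ≠ 0 :=
  mul_ne_zero (pow_ne_zero _ (div_ne_zero (sub_ne_zero.2 hw.symm) two_ne_zero)) (exp_ne_zero _)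

theorem radial_f0 {ζ : ℂ × ℂ} (h : (ζ.1 + ζ.2) / 2 ≠ 1) : HasRadialLimit f0 ζ (f0 ζ) := by
  have h1 : ContinuousAt F ((ζ.1 + ζ.2) / 2) := (dF h).continuousAt
  have h2 : Tendsto (fun r : ℝ => ((r : ℂ) * ζ.1 + (r : ℂ) * ζ.2) / 2) (𝓝[<] 1)
      (𝓝 ((ζ.1 + ζ.2) / 2)) := by
    apply Tendsto.mono_left _ nhdsWithin_le_nhds
    have : Continuous (fun r : ℝ => ((r : ℂ) * ζ.1 + (r : ℂ) * ζ.2) / 2) := by fun_prop
    simpa using this.tendsto 1
  exact h1.tendsto.comp h2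

theorem eq_one_of {x y : ℂ} (hx : ‖x‖ ≤ 1) (hy : ‖y‖ ≤ 1) (h : (x + y) / 2 = 1) :
    x = 1 ∧ y = 1 := by
  have h1 : x.re + y.re = 2 := by
    have : x + y = 2 := by linear_combination 2 * h
    simpa using congrArg Complex.re this
  have hx1 := (re_le_norm x).trans hx
  have hy1 := (re_le_norm y).trans hy
  have key : ∀ z : ℂ, ‖z‖ ≤ 1 → z.re = 1 → z = 1 := by
    intro z hz hre
    have e1 : ‖z‖ ^ 2 = z.re * z.re + z.im * z.im := by rw [Complex.sq_norm, normSq_apply]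
    have : z.im * z.im ≤ 0 := by nlinarith [norm_nonneg z]
    have him : z.im = 0 := by nlinarith [mul_self_nonneg z.im]
    exact Complex.ext (by simpa using hre) (by simpa using him)
  exact ⟨key x hx (by linarith), key y hy (by linarith)⟩

theorem radialZeros_subset : radialZeros f0 ⊆ {((1 : ℂ), (1 : ℂ))} := by
  rintro ζ ⟨⟨h1, h2⟩, h3⟩
  by_contra hne
  have h : (ζ.1 + ζ.2) / 2 ≠ 1 := by
    intro h
    obtain ⟨a, b⟩ := eq_one_of h1.le h2.le h
    exact hne (Prod.ext a b)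
  exact F_ne_zero h (tendsto_nhds_unique (radial_f0 h) h3)

theorem capacityZero_f0 : CapacityZero (radialZeros f0) := by
  intro μ hμ h
  have hae : ∀ᵐ ζ ∂μ, ζ = ((1 : ℂ), (1 : ℂ)) := by
    rw [ae_iff]
    exact measure_mono_null (fun ζ hζ hz => hζ (radialZeros_subset hz)) h
  have h1 : ∫⁻ ξ : ℂ × ℂ, logKernel 1 ξ.1 * logKernel 1 ξ.2 ∂μ = ⊤ := by
    rw [lintegral_congr_ae (g := fun _ => ⊤) (hae.mono fun ξ hξ => by simp [hξ, logKernel])]
    simp
  rw [energy, lintegral_congr_ae (g := fun _ => ⊤) (hae.mono fun ζ hζ => by simp [hζ, h1])]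
  simp

end Pool.Agent.H302Z.BS
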