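import Pool.Agent.H302Z.BSB

set_option autoImplicit false

open MeasureTheory Filter Topology Set Metric Complex
open scoped ENNReal

namespace Pool.Agent.H302Z.BS

noncomputable def Hf (w : ℂ) : ℂ := 6 * Complex.log ((1 - w) / 2) + -2 * ((1 + w) / (1 - w))

theorem log_norm_F {w : ℂ} (hw : w ≠ 1) : Real.log ‖F w‖ = (Hf w).re := by
  have h0 : (1 - w) / 2 ≠ 0 := div_ne_zero (sub_ne_zero.2 hw.symm) two_ne_zero
  rw [F, Sg, norm_mul, norm_pow, Real.log_mul (pow_ne_zero _ (norm_ne_zero_iff.2 h0))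
    (norm_ne_zero_iff.2 (exp_ne_zero _)), Real.log_pow, norm_exp, Real.log_exp, Hf, add_re,
    ← Complex.log_re]
  simp

theorem diff_Hf {w : ℂ} (hw : w.re < 1) : DifferentiableAt ℂ Hf w := by
  have h0 : (1 - w) ≠ 0 := by
    intro h
    have := congrArg Complex.re h
    simp at this
    linarith
  have h1 : (1 - w) / 2 ∈ slitPlane := by
    left
    simp
    linarith
  unfold Hf
  have h2 : DifferentiableAt ℂ (fun w : ℂ => Complex.log ((1 - w) / 2)) w :=
    DifferentiableAt.clog (f := fun w : ℂ => (1 - w) / 2) (by fun_prop) h1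
  refine DifferentiableAt.add (DifferentiableAt.const_mul h2 6) ?_
  fun_prop (disch := exact h0)

theorem norm_F_le {w : ℂ} (hw : ‖w‖ ≤ 1) : ‖F w‖ ≤ 1 := by
  have h1 : ‖(1 - w) / 2‖ ≤ 1 := by
    have := norm_sub_le (1 : ℂ) w
    rw [norm_div, Complex.norm_ofNat]
    simp only [norm_one] at this
    linarith
  rw [F, norm_mul, norm_pow]
  exact mul_le_one₀ (pow_le_one₀ (norm_nonneg _) h1) (norm_nonneg _) (norm_Sg_le hw)

theorem norm_e (t : ℝ) : ‖cexp (t * I)‖ = 1 := norm_exp_ofReal_mul_I t

theorem poisson_nonneg {w : ℂ} (hw : ‖w‖ < 1) (t : ℝ) : 0 ≤ poisson w t := by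
  have : 0 ≤ 1 - ‖w‖ ^ 2 := by nlinarith [norm_nonneg w]
  unfold poisson
  positivity

theorem poisson_cont {w : ℂ} (hw : ‖w‖ < 1) : Continuous (poisson w) := by
  unfold poisson
  refine Continuous.div continuous_const (by fun_prop) fun t => ?_
  refine pow_ne_zero _ (norm_ne_zero_iff.2 (sub_ne_zero.2 fun h => ?_))
  have := norm_e t
  rw [h] at this
  linarith

theorem poisson1 {φ : ℂ → ℂ} (hφ : ∀ x : ℂ, ‖x‖ ≤ 1 → DifferentiableAt ℂ φ x) {w : ℂ}
    (hw : ‖w‖ < 1) :
    Continuous (fun t : ℝ => (φ (cexp (t * I))).re * poisson w t) ∧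
    ∫ t in Ioc 0 (2 * Real.pi), (φ (cexp (t * I))).re * poisson w t =
      2 * Real.pi * (φ w).re := by
  have hc : Continuous (fun t : ℝ => φ (cexp (t * I))) := by
    rw [continuous_iff_continuousAt]
    intro t
    exact ContinuousAt.comp (g := φ) (hφ _ (norm_e t).le).continuousAt (by fun_prop)
  have hc2 : Continuous (fun t : ℝ => poisson w t • φ (cexp (t * I))) :=
    (poisson_cont hw).smul hc
  refine ⟨(continuous_re.comp hc).mul (poisson_cont hw), ?_⟩
  have hd : DiffContOnCl ℂ φ (ball 0 1) := by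
    refine DifferentiableOn.diffContOnCl fun x hx => (hφ x ?_).differentiableWithinAt
    rw [closure_ball _ one_ne_zero] at hx
    simpa using hx
  have h1 := hd.circleAverage_poissonKernel_smul' (w := w) (by simpa using hw)
  rw [Real.circleAverage_def] at h1
  have h2 : ∫ θ in (0 : ℝ)..2 * Real.pi, poisson w θ • φ (cexp (θ * I)) =
      (2 * Real.pi) • φ w := by
    rw [← h1, smul_smul, mul_inv_cancel₀ (by positivity), one_smul]
    refine intervalIntegral.integral_congr fun θ _ => ?_
    simp [circleMap, poisson, norm_e]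
  rw [intervalIntegral.integral_of_le (by positivity)] at h2
  have h3 := congrArg Complex.re h2
  have hi : Integrable (fun t : ℝ => poisson w t • φ (cexp (t * I)))
      (volume.restrict (Ioc 0 (2 * Real.pi))) :=
    hc2.integrableOn_Icc.mono_set Ioc_subset_Icc_self
  have h4 := integral_re hi
  simp only [RCLike.re_to_complex] at h4
  rw [← h4] at h3
  simp only [real_smul, re_ofReal_mul] at h3
  rw [← h3]
  refine integral_congr_ae (Eventually.of_forall fun t => ?_)
  simp only
  ring

theorem ae_ne_one : ∀ᵐ t ∂(volume.restrict (Ioc 0 (2 * Real.pi))), (cexp ((t : ℝ) * I)).re < 1 := by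
  have h1 : ∀ᵐ t ∂(volume.restrict (Ioc 0 (2 * Real.pi))), t ≠ 2 * Real.pi :=
    ae_restrict_of_ae (by simp [ae_iff])
  filter_upwards [h1, ae_restrict_mem measurableSet_Ioc] with t ht ht'
  rw [exp_ofReal_mul_I_re]
  refine lt_of_le_of_ne (Real.cos_le_one t) fun h => ?_
  have := (Real.cos_eq_one_iff_of_lt_of_lt (by linarith [ht'.1, Real.pi_pos])
    (lt_of_le_of_ne ht'.2 ht)).1 h
  exact ht'.1.ne' this

theorem re_mid_lt {x y : ℂ} (hx : ‖x‖ ≤ 1) (hy : y.re < 1) : ((x + y) / 2).re < 1 := by
  have := (re_le_norm x).trans hx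
  simp
  linarith

theorem ne_one_of_re {u : ℂ} (h : u.re < 1) : u ≠ 1 := by
  rintro rfl
  simp at h

theorem norm_mid_le {x y : ℂ} (hx : ‖x‖ ≤ 1) (hy : ‖y‖ ≤ 1) : ‖(x + y) / 2‖ ≤ 1 := by
  rw [norm_div, Complex.norm_ofNat]
  linarith [norm_add_le x y]

theorem outer_f0 : Outer f0 := by
  have hμ : (volume : Measure (ℝ × ℝ)).restrict angles =
      (volume.restrict (Ioc 0 (2 * Real.pi))).prod (volume.restrict (Ioc 0 (2 * Real.pi))) := by
    rw [Measure.prod_restrict]
    rfl
  refine ⟨fun θ => f0 (cexp (θ.1 * I), cexp (θ.2 * I)), ?_, ?_⟩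
  · rw [hμ]
    have := Measure.quasiMeasurePreserving_snd (μ := volume.restrict (Ioc 0 (2 * Real.pi)))
      (ν := volume.restrict (Ioc 0 (2 * Real.pi))) |>.ae ae_ne_one
    filter_upwards [this] with θ hθ
    have h := ne_one_of_re (re_mid_lt (norm_e θ.1).le hθ)
    exact ⟨F_ne_zero h, radial_f0 h⟩
  · rintro ⟨x, y⟩ ⟨hx, hy⟩
    simp only at hx hy ⊢
    have hxre : x.re < 1 := (re_le_norm x).trans_lt hx
    have hyre : y.re < 1 := (re_le_norm y).trans_lt hy
    have hxy : (x + y) / 2 ≠ 1 := ne_one_of_re (re_mid_lt hx.le hyre)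
    set Φ : ℝ × ℝ → ℝ := fun θ => Real.log ‖f0 (cexp (θ.1 * I), cexp (θ.2 * I))‖ *
      (poisson x θ.1 * poisson y θ.2) with hΦ
    have hmeas : Measurable Φ := by
      have p1 := (poisson_cont hx).measurable
      have p2 := (poisson_cont hy).measurable
      simp only [hΦ, f0, F, Sg]
      fun_prop
    -- inner integrals
    have inner : ∀ s : ℝ, (cexp (s * I)).re < 1 →
        Integrable (fun t => Φ (t, s)) (volume.restrict (Ioc 0 (2 * Real.pi))) ∧
        ∫ t in Ioc 0 (2 * Real.pi), Φ (t, s) =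
          2 * Real.pi * ((Hf ((x + cexp (s * I)) / 2)).re * poisson y s) := by
      intro s hs
      obtain ⟨c1, c2⟩ := poisson1 (φ := fun v => Hf ((v + cexp (s * I)) / 2))
        (fun v hv => DifferentiableAt.comp (g := Hf) v (diff_Hf (re_mid_lt hv hs)) (by fun_prop)) hx
      have e : (fun t => Φ (t, s)) = fun t : ℝ =>
          ((Hf ((cexp (t * I) + cexp (s * I)) / 2)).re * poisson x t) * poisson y s := by
        ext t
        simp only [hΦ, f0]
        rw [log_norm_F (ne_one_of_re (re_mid_lt (norm_e t).le hs))]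
        ring
      rw [e]
      refine ⟨(c1.mul continuous_const).integrableOn_Icc.mono_set Ioc_subset_Icc_self, ?_⟩
      rw [integral_mul_const, c2]
      ring
    have hneg : ∀ θ, Φ θ ≤ 0 := by
      intro θ
      refine mul_nonpos_of_nonpos_of_nonneg (Real.log_nonpos (norm_nonneg _) ?_)
        (mul_nonneg (poisson_nonneg hx _) (poisson_nonneg hy _))
      exact norm_F_le (norm_mid_le (norm_e _).le (norm_e _).le)
    obtain ⟨d1, d2⟩ := poisson1 (φ := fun v => Hf ((x + v) / 2))
      (fun v hv => DifferentiableAt.comp (g := Hf) v (diff_Hf (by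
        rw [add_comm]; exact re_mid_lt hv hxre)) (by fun_prop)) hy
    have hint : Integrable Φ ((volume.restrict (Ioc 0 (2 * Real.pi))).prod
        (volume.restrict (Ioc 0 (2 * Real.pi)))) := by
      rw [integrable_prod_iff' hmeas.aestronglyMeasurable]
      refine ⟨ae_ne_one.mono fun s hs => (inner s hs).1, ?_⟩
      have h1 : Integrable (fun s : ℝ => -(2 * Real.pi *
          ((Hf ((x + cexp (s * I)) / 2)).re * poisson y s)))
          (volume.restrict (Ioc 0 (2 * Real.pi))) :=
        ((continuous_const.mul d1).neg).integrableOn_Icc.mono_set Ioc_subset_Icc_self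
      refine h1.congr (ae_ne_one.mono fun s hs => ?_)
      simp only
      rw [← (inner s hs).2, ← integral_neg]
      refine integral_congr_ae (Eventually.of_forall fun t => ?_)
      simp only
      rw [Real.norm_eq_abs, abs_of_nonpos (hneg _)]
    refine ⟨F_ne_zero hxy, ?_, ?_⟩
    · rw [IntegrableOn, hμ]
      exact hint
    · rw [hμ, integral_prod_symm _ hint,
        integral_congr_ae (ae_ne_one.mono fun s hs => (inner s hs).2), integral_const_mul, d2]
      simp only [f0]
      rw [log_norm_F hxy]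
      have := Real.pi_pos
      field_simp

end Pool.Agent.H302Z.BS
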