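import Mathlib

set_option autoImplicit false

open MeasureTheory Filter Topology Set
open scoped ENNReal

namespace Pool.Agent.H302Z.BS

/-- The open unit bidisk. -/
def bidisk : Set (ℂ × ℂ) := {z | ‖z.1‖ < 1 ∧ ‖z.2‖ < 1}

/-- The unit torus, the distinguished boundary of the bidisk. -/
def torus : Set (ℂ × ℂ) := {z | ‖z.1‖ = 1 ∧ ‖z.2‖ = 1}

/-- `f z = ∑ a (k, l) z₁ ^ k z₂ ^ l` for all `z` in the bidisk. -/
def HasCoeff (f : ℂ × ℂ → ℂ) (a : ℕ × ℕ → ℂ) : Prop :=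
  ∀ z ∈ bidisk, HasSum (fun p : ℕ × ℕ => a p * z.1 ^ p.1 * z.2 ^ p.2) (f z)

/-- The squared Dirichlet norm `∑ (k + 1) (l + 1) |a (k, l)| ^ 2`, as an extended nonnegative
real number. -/
noncomputable def normSq (a : ℕ × ℕ → ℂ) : ℝ≥0∞ :=
  ∑' p : ℕ × ℕ, ENNReal.ofReal (((p.1 : ℝ) + 1) * ((p.2 : ℝ) + 1) * ‖a p‖ ^ 2)

/-- `f` (restricted to the bidisk) lies in the Dirichlet space of the bidisk. -/
def InDirichlet (f : ℂ × ℂ → ℂ) : Prop := ∃ a, HasCoeff f a ∧ normSq a < ⊤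

/-- `f` is cyclic: for every `ε > 0` there is a polynomial `p` in two variables such that the
squared Dirichlet norm of `p f - 1` is less than `ε`. -/
def Cyclic (f : ℂ × ℂ → ℂ) : Prop :=
  ∀ ε : ℝ≥0∞, 0 < ε → ∃ (p : MvPolynomial (Fin 2) ℂ) (b : ℕ × ℕ → ℂ),
    HasCoeff (fun z => MvPolynomial.eval ![z.1, z.2] p * f z - 1) b ∧ normSq b < ε

/-- `w` is the radial limit of `f` at the point `ζ` of the torus. -/
def HasRadialLimit (f : ℂ × ℂ → ℂ) (ζ : ℂ × ℂ) (w : ℂ) : Prop :=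
  Tendsto (fun r : ℝ => f ((r : ℂ) * ζ.1, (r : ℂ) * ζ.2)) (𝓝[<] 1) (𝓝 w)

/-- The Poisson kernel of the unit disk at `w`, evaluated at `exp (i t)`. -/
noncomputable def poisson (w : ℂ) (t : ℝ) : ℝ :=
  (1 - ‖w‖ ^ 2) / ‖Complex.exp (t * Complex.I) - w‖ ^ 2

/-- The square of angles `(0, 2π] × (0, 2π]`, parametrising the torus. -/
def angles : Set (ℝ × ℝ) := Ioc 0 (2 * Real.pi) ×ˢ Ioc 0 (2 * Real.pi)

/-- `f` is outer: it has no zeros in the bidisk, it has nonzero radial limits `g` almost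
everywhere on the torus, and `log |f|` is the Poisson integral of `log |g|` (the integrand being
integrable) with respect to normalised Haar measure on the torus. -/
def Outer (f : ℂ × ℂ → ℂ) : Prop :=
  ∃ g : ℝ × ℝ → ℂ,
    (∀ᵐ θ ∂(volume.restrict angles), g θ ≠ 0 ∧
      HasRadialLimit f (Complex.exp (θ.1 * Complex.I), Complex.exp (θ.2 * Complex.I)) (g θ)) ∧
    ∀ z ∈ bidisk, f z ≠ 0 ∧
      IntegrableOn (fun θ : ℝ × ℝ => Real.log ‖g θ‖ * (poisson z.1 θ.1 * poisson z.2 θ.2))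
        angles ∧
      Real.log ‖f z‖ = (1 / (2 * Real.pi)) ^ 2 *
        ∫ θ in angles, Real.log ‖g θ‖ * (poisson z.1 θ.1 * poisson z.2 θ.2)

/-- The logarithmic kernel `log (e / |x - y|)`, with value `+∞` for `x = y`. -/
noncomputable def logKernel (x y : ℂ) : ℝ≥0∞ :=
  open Classical in
  if x = y then ⊤ else ENNReal.ofReal (Real.log (Real.exp 1 / ‖x - y‖))

/-- The logarithmic energy of a measure on the torus. -/
noncomputable def energy (μ : Measure (ℂ × ℂ)) : ℝ≥0∞ :=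
  ∫⁻ ζ, ∫⁻ ξ, logKernel ζ.1 ξ.1 * logKernel ζ.2 ξ.2 ∂μ ∂μ

/-- `E` has logarithmic capacity zero: no Borel probability measure carried by `E` has finite
logarithmic energy. -/
def CapacityZero (E : Set (ℂ × ℂ)) : Prop :=
  ∀ μ : Measure (ℂ × ℂ), IsProbabilityMeasure μ → μ Eᶜ = 0 → energy μ = ⊤

/-- The set of points of the torus where the radial limit of `f` exists and equals `0`. -/
def radialZeros (f : ℂ × ℂ → ℂ) : Set (ℂ × ℂ) := {ζ | ζ ∈ torus ∧ HasRadialLimit f ζ 0}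

end Pool.Agent.H302Z.BS
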