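import Pool.Agent.H302Z.CaDefs

set_option autoImplicit false

open MeasureTheory Set
open scoped ENNReal NNReal commutatorElement

namespace Pool.Agent.H302Z.Ca

section Group

variable {V W : Type} [AddCommGroup V] [Module ℝ V] [AddCommGroup W] [Module ℝ W]
  (S : Step2 V W)

theorem mul_a (g h : S.Grp) : (g * h).a = g.a + h.a := rfl
theorem mul_z (g h : S.Grp) : (g * h).z = g.z + h.z + (1 / 2 : ℝ) • S.br g.a h.a := rfl
theorem inv_a (g : S.Grp) : (g⁻¹).a = -g.a := rfl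
theorem inv_z (g : S.Grp) : (g⁻¹).z = -g.z := rfl
theorem one_a : (1 : S.Grp).a = 0 := rfl
theorem one_z : (1 : S.Grp).z = 0 := rfl

theorem br_anti (u v : V) : S.br v u = -S.br u v := by
  have h := S.alt (u + v)
  simp only [map_add, LinearMap.add_apply, S.alt] at h
  rw [eq_neg_iff_add_eq_zero, ← h]
  abel

theorem comm_eq (g h : S.Grp) : ⁅g, h⁆ = (⟨0, S.br g.a h.a⟩ : S.Grp) := by
  rw [commutatorElement_def]
  refine Step2.Grp.ext ?_ ?_
  · simp only [mul_a, inv_a]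
    abel
  · simp only [mul_a, mul_z, inv_a, inv_z, map_add, map_neg, LinearMap.add_apply,
      LinearMap.neg_apply, S.alt, br_anti S g.a h.a]
    module

theorem comm_eq_one (g h : S.Grp) : ⁅g, h⁆ = 1 ↔ S.br g.a h.a = 0 := by
  rw [comm_eq]
  constructor
  · intro e
    exact congrArg Step2.Grp.z e
  · intro e
    rw [e]
    rfl

theorem a_of_mem_commutator {g : S.Grp} (hg : g ∈ commutator S.Grp) : g.a = 0 := by
  let K : Subgroup S.Grp :=
    { carrier := {g | g.a = 0}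
      mul_mem' := fun {x y} hx hy => by
        have hx' : x.a = 0 := hx
        have hy' : y.a = 0 := hy
        change (x * y).a = 0
        rw [mul_a, hx', hy', add_zero]
      one_mem' := rfl
      inv_mem' := fun {x} hx => by
        have hx' : x.a = 0 := hx
        change (x⁻¹).a = 0
        rw [inv_a, hx', neg_zero] }
  have : commutator S.Grp ≤ K := by
    rw [commutator_def, Subgroup.commutator_le]
    intro x _ y _
    rw [comm_eq]
    rfl
  exact this hg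

end Group

abbrev V0 := (ℝ × ℝ) × (ℝ × ℝ)
abbrev W0 := ℝ × ℝ

def b0 (u v : V0) : W0 :=
  (u.1.1 * v.1.2 - u.1.2 * v.1.1, u.2.1 * v.1.1 + u.2.2 * v.1.2 - v.2.1 * u.1.1 - v.2.2 * u.1.2)

theorem b0_surj (w : W0) : b0 ((1, 0), (0, 0)) ((0, w.1), (-w.2, 0)) = w := by
  simp [b0]

/-- The Heisenberg algebra over the dual numbers. -/
def S0 : Step2 V0 W0 where
  br := LinearMap.mk₂ ℝ b0
    (fun u u' v => by ext <;> simp [b0] <;> ring)
    (fun c u v => by ext <;> simp [b0] <;> ring)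
    (fun u v v' => by ext <;> simp [b0] <;> ring)
    (fun c u v => by ext <;> simp [b0] <;> ring)
  alt := fun v => by ext <;> simp [b0] <;> ring
  span_top := eq_top_iff.2 fun w _ => Submodule.subset_span ⟨_, _, b0_surj w⟩

theorem S0_br (u v : V0) : S0.br u v = b0 u v := rfl

theorem exists_comm {g : S0.Grp} (hg : g.a = 0) : ∃ k l : S0.Grp, g = ⁅k, l⁆ := by
  refine ⟨⟨((1, 0), (0, 0)), 0⟩, ⟨((0, g.z.1), (-g.z.2, 0)), 0⟩, ?_⟩
  rw [comm_eq, S0_br, b0_surj]
  exact Step2.Grp.ext hg rfl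

theorem mem_comm_iff (g : S0.Grp) : g ∈ commutator S0.Grp ↔ g.a = 0 := by
  refine ⟨a_of_mem_commutator S0, fun hg => ?_⟩
  obtain ⟨k, l, rfl⟩ := exists_comm hg
  exact Subgroup.commutator_mem_commutator (Subgroup.mem_top _) (Subgroup.mem_top _)

theorem central_zero {u : V0} (h : ∀ v, b0 u v = 0) : u = 0 := by
  have h1 := h ((1, 0), (0, 0))
  have h2 := h ((0, 1), (0, 0))
  simp only [b0, Prod.mk_eq_zero] at h1 h2
  obtain ⟨⟨a, b⟩, ⟨c, d⟩⟩ := u
  simp only [Prod.mk_eq_zero]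
  simp only at h1 h2
  refine ⟨⟨by linarith [h2.1], by linarith [h1.1]⟩, by linarith [h1.2], by linarith [h2.2]⟩

theorem centraliser_comm {u v v' : V0} (hu : u.1 ≠ 0) (h1 : b0 u v = 0) (h2 : b0 u v' = 0) :
    b0 v v' = 0 := by
  obtain ⟨⟨x1, x2⟩, ⟨p1, p2⟩⟩ := u
  obtain ⟨⟨y1, y2⟩, ⟨q1, q2⟩⟩ := v
  obtain ⟨⟨y1', y2'⟩, ⟨q1', q2'⟩⟩ := v'
  simp only [b0, Prod.mk_eq_zero, ne_eq, not_and] at *
  obtain ⟨a1, a2⟩ := h1
  obtain ⟨b1, b2⟩ := h2
  by_cases hx : x1 = 0
  · have hx2 := hu hx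
    have e1 : y1 * y2' - y2 * y1' = 0 := by
      apply mul_left_cancel₀ hx2
      linear_combination (-y2') * a1 + y2 * b1
    refine ⟨e1, ?_⟩
    apply mul_left_cancel₀ hx2
    linear_combination (-q1) * b1 + q1' * a1 - y2' * a2 + y2 * b2 + p1 * e1
  · have e1 : y1 * y2' - y2 * y1' = 0 := by
      apply mul_left_cancel₀ hx
      linear_combination y1 * b1 - y1' * a1
    refine ⟨e1, ?_⟩
    apply mul_left_cancel₀ hx
    linear_combination q2 * b1 - q2' * a1 - y1' * a2 + y1 * b2 - p2 * e1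

theorem abelian_factor {A G : Type} [Group A] [Group G] (ψ : S0.Grp ≃* A × G)
    (hA : ∀ p q : A, ⁅p, q⁆ = 1) : Subsingleton A := by
  refine subsingleton_of_forall_eq 1 fun p => ?_
  have h1 : (ψ.symm (p, 1)).a = 0 := by
    apply central_zero
    intro v
    have := (comm_eq_one S0 (ψ.symm (p, 1)) ⟨v, 0⟩).1 (by
      apply ψ.injective
      rw [map_commutatorElement, map_one, MulEquiv.apply_symm_apply]
      refine Prod.ext (hA _ _) ?_
      change ⁅(1 : G), _⁆ = 1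
      simp)
    exact this
  obtain ⟨k, l, e⟩ := exists_comm h1
  have h2 := congrArg ψ e
  rw [MulEquiv.apply_symm_apply, map_commutatorElement] at h2
  have h3 : p = ⁅(ψ k).1, (ψ l).1⁆ := congrArg Prod.fst h2
  rw [h3, hA]

theorem indecomposable (A G : Type) [Group A] [Group G] (ψ : S0.Grp ≃* A × G) :
    Subsingleton A ∨ Subsingleton G := by
  by_cases hA : ∀ p q : A, ⁅p, q⁆ = 1
  · exact Or.inl (abelian_factor ψ hA)
  right
  refine abelian_factor (ψ.trans MulEquiv.prodComm) fun r s => ?_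
  push Not at hA
  obtain ⟨p, q, hpq⟩ := hA
  have hmix : ∀ (p : A) (r : G), b0 (ψ.symm (p, 1)).a (ψ.symm (1, r)).a = 0 := by
    intro p r
    refine (comm_eq_one S0 _ _).1 ?_
    rw [← map_commutatorElement]
    have : ⁅((p, 1) : A × G), ((1, r) : A × G)⁆ = 1 := by
      refine Prod.ext ?_ ?_
      · change ⁅p, (1 : A)⁆ = 1
        simp
      · change ⁅(1 : G), r⁆ = 1
        simp
    rw [this, map_one]
  have key : ∀ p : A, (ψ.symm (p, 1)).a.1 ≠ 0 → ⁅r, s⁆ = 1 := by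
    intro p hp
    have h3 := (comm_eq_one S0 _ _).2 (centraliser_comm hp (hmix p r) (hmix p s))
    rw [← map_commutatorElement, MulEquiv.map_eq_one_iff] at h3
    exact congrArg Prod.snd h3
  by_cases h1 : (ψ.symm (p, 1)).a.1 = 0
  · by_cases h2 : (ψ.symm (q, 1)).a.1 = 0
    · exfalso
      apply hpq
      have h3 := (comm_eq_one S0 (ψ.symm (p, 1)) (ψ.symm (q, 1))).2 (by
        rw [S0_br, b0, h1, h2]
        simp)
      rw [← map_commutatorElement, MulEquiv.map_eq_one_iff] at h3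
      exact congrArg Prod.fst h3
    · exact key q h2
  · exact key p h1

theorem heis_prop (n : ℕ) (g h k l : (heis n).Grp) (hne : ⁅g, h⁆ ≠ 1) :
    ∃ m, ⁅g, m⁆ = ⁅k, l⁆ := by
  rw [Ne, comm_eq_one] at hne
  refine ⟨⟨((heis n).br k.a l.a / (heis n).br g.a h.a) • h.a, 0⟩, ?_⟩
  rw [comm_eq, comm_eq]
  congr 1
  rw [map_smul, smul_eq_mul, div_mul_cancel₀ _ hne]

theorem no_heis (n : ℕ) (G : Type) [Group G] : IsEmpty (S0.Grp ≃* (heis n).Grp × G) := by
  refine ⟨fun ψ => ?_⟩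
  rcases indecomposable _ _ ψ with h | h
  · have : (⟨0, 1⟩ : (heis n).Grp) = ⟨0, 0⟩ := Subsingleton.elim _ _
    have h2 := congrArg Step2.Grp.z this
    simp at h2
  · let g : S0.Grp := ⟨((0, 0), (1, 0)), 0⟩
    let h' : S0.Grp := ⟨((1, 0), (0, 0)), 0⟩
    let l : S0.Grp := ⟨((0, 1), (0, 0)), 0⟩
    have hne : ⁅(ψ g).1, (ψ h').1⁆ ≠ 1 := by
      intro e
      have : ⁅ψ g, ψ h'⁆ = 1 := Prod.ext e (Subsingleton.elim _ _)
      rw [← map_commutatorElement, MulEquiv.map_eq_one_iff, comm_eq_one, S0_br] at this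
      simp [b0, g, h'] at this
    obtain ⟨m, hm⟩ := heis_prop n _ _ (ψ h').1 (ψ l).1 hne
    have h1 : ⁅ψ g, ψ (ψ.symm (m, 1))⁆ = ⁅ψ h', ψ l⁆ := by
      rw [MulEquiv.apply_symm_apply]
      exact Prod.ext hm (Subsingleton.elim _ _)
    rw [← map_commutatorElement, ← map_commutatorElement, ψ.apply_eq_iff_eq, comm_eq,
      comm_eq] at h1
    have h2 := congrArg (fun x : S0.Grp => x.z.1) h1
    simp [S0_br, b0, g, h', l] at h2

end Pool.Agent.H302Z.Ca
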