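import Pool.Agent.H302Z.CaA

set_option autoImplicit false

open MeasureTheory Set
open scoped ENNReal NNReal

namespace Pool.Agent.H302Z.Ca

abbrev E0 := (ℝ × ℝ) × ℝ

noncomputable def X1 (h : E0 → ℝ) (m : E0) : ℝ := fderiv ℝ h m ((1, 0), -m.1.2 / 2)
noncomputable def X2 (h : E0 → ℝ) (m : E0) : ℝ := fderiv ℝ h m ((0, 1), m.1.1 / 2)

theorem X1_smooth {h : E0 → ℝ} {n : ℕ} (hh : ContDiff ℝ (n + 1 : ℕ) h) : ContDiff ℝ n (X1 h) :=
  (hh.fderiv_right (m := n) (by norm_cast)).clm_apply (by fun_prop)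

theorem X2_smooth {h : E0 → ℝ} {n : ℕ} (hh : ContDiff ℝ (n + 1 : ℕ) h) : ContDiff ℝ n (X2 h) :=
  (hh.fderiv_right (m := n) (by norm_cast)).clm_apply (by fun_prop)

theorem X1_supp {h : E0 → ℝ} (hh : HasCompactSupport h) : HasCompactSupport (X1 h) :=
  (hh.fderiv ℝ).mono fun m hm h0 => hm (by simp [X1, h0])

theorem X2_supp {h : E0 → ℝ} (hh : HasCompactSupport h) : HasCompactSupport (X2 h) :=
  (hh.fderiv ℝ).mono fun m hm h0 => hm (by simp [X2, h0])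

theorem deriv_along {h : E0 → ℝ} (hh : Differentiable ℝ h) {c : ℝ → E0} {t : ℝ} {v1 v2 : ℝ}
    (hc : HasDerivAt c ((v1, v2), (1 / 2 : ℝ) * ((c t).1.1 * v2 - (c t).1.2 * v1)) t) :
    HasDerivAt (fun s => h (c s)) (v1 * X1 h (c t) + v2 * X2 h (c t)) t := by
  refine ((hh (c t)).hasFDerivAt.comp_hasDerivAt t hc).congr_deriv ?_
  have e : (((v1, v2), (1 / 2 : ℝ) * ((c t).1.1 * v2 - (c t).1.2 * v1)) : E0) =
      v1 • (((1, 0), -(c t).1.2 / 2) : E0) + v2 • (((0, 1), (c t).1.1 / 2) : E0) := by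
    ext <;> simp
    ring
  rw [e, map_add, map_smul, map_smul]
  rfl

noncomputable def bump : ContDiffBump (0 : E0) := ⟨1, 2, one_pos, one_lt_two⟩

noncomputable def f0 (m : E0) : ℝ := m.1.1 * bump m

theorem f0_smooth (n : ℕ) : ContDiff ℝ n f0 :=
  ContDiff.mul (by fun_prop) bump.contDiff

theorem f0_supp : HasCompactSupport f0 :=
  bump.hasCompactSupport.mul_left

theorem X1_f0 (t : ℝ) : X1 f0 ((0, 0), t) = bump ((0, 0), t) := by
  have h1 : HasFDerivAt (fun m : E0 => m.1.1)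
      ((ContinuousLinearMap.fst ℝ ℝ ℝ).comp (ContinuousLinearMap.fst ℝ (ℝ × ℝ) ℝ)) ((0, 0), t) :=
    ((ContinuousLinearMap.fst ℝ ℝ ℝ).comp (ContinuousLinearMap.fst ℝ (ℝ × ℝ) ℝ)).hasFDerivAt
  have h2 := ((bump.contDiff (n := 1)).differentiable (by simp) ((0, 0), t)).hasFDerivAt
  have h3 := (h1.mul h2).fderiv
  have e : f0 = (fun m : E0 => m.1.1) * (bump : E0 → ℝ) := rfl
  rw [X1, e, h3]
  simp

theorem hess_bound : ∃ C : ℝ, 0 ≤ C ∧ ∀ m, |X1 (X1 f0) m| ≤ C ∧ |X2 (X1 f0) m| ≤ C ∧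
    |X1 (X2 f0) m| ≤ C ∧ |X2 (X2 f0) m| ≤ C := by
  have s1 : ContDiff ℝ (0 + 1 : ℕ) (X1 f0) := X1_smooth (f0_smooth _)
  have s2 : ContDiff ℝ (0 + 1 : ℕ) (X2 f0) := X2_smooth (f0_smooth _)
  obtain ⟨C1, h1⟩ := (X1_smooth s1).continuous.bounded_above_of_compact_support
    (X1_supp (X1_supp f0_supp))
  obtain ⟨C2, h2⟩ := (X2_smooth s1).continuous.bounded_above_of_compact_support
    (X2_supp (X1_supp f0_supp))
  obtain ⟨C3, h3⟩ := (X1_smooth s2).continuous.bounded_above_of_compact_support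
    (X1_supp (X2_supp f0_supp))
  obtain ⟨C4, h4⟩ := (X2_smooth s2).continuous.bounded_above_of_compact_support
    (X2_supp (X2_supp f0_supp))
  refine ⟨|C1| + |C2| + |C3| + |C4|, by positivity, fun m => ?_⟩
  have a1 := (h1 m).trans (le_abs_self _)
  have a2 := (h2 m).trans (le_abs_self _)
  have a3 := (h3 m).trans (le_abs_self _)
  have a4 := (h4 m).trans (le_abs_self _)
  rw [Real.norm_eq_abs] at a1 a2 a3 a4
  have := abs_nonneg C1
  have := abs_nonneg C2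
  have := abs_nonneg C3
  have := abs_nonneg C4
  exact ⟨by linarith, by linarith, by linarith, by linarith⟩

def pr (q : V0 × W0) : E0 := (q.1.1, q.2.1)

noncomputable def Phi (ε : ℝ) (q : V0 × W0) : V0 × W0 :=
  ((q.1.1, (q.1.2.1 + ε * X1 f0 (pr q), q.1.2.2 + ε * X2 f0 (pr q))),
    (q.2.1, q.2.2 + ε * (f0 (pr q) -
      (1 / 2) * (q.1.1.1 * X1 f0 (pr q) + q.1.1.2 * X2 f0 (pr q)))))

theorem pr_Phi (ε : ℝ) (q : V0 × W0) : pr (Phi ε q) = pr q := rfl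

theorem Phi_Phi (ε : ℝ) (q : V0 × W0) : Phi (-ε) (Phi ε q) = q := by
  have e := pr_Phi ε q
  unfold Phi at e ⊢
  simp only [e]
  ext <;> simp

theorem Phi_smooth (ε : ℝ) : ContDiff ℝ 1 (Phi ε) := by
  have s0 : ContDiff ℝ 1 f0 := f0_smooth 1
  have s1 : ContDiff ℝ 1 (X1 f0) := X1_smooth (n := 1) (f0_smooth _)
  have s2 : ContDiff ℝ 1 (X2 f0) := X2_smooth (n := 1) (f0_smooth _)
  unfold Phi pr
  fun_prop

theorem ac_comp {A B : Type} [NormedAddCommGroup A] [NormedSpace ℝ A] [ProperSpace A]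
    [NormedAddCommGroup B] [NormedSpace ℝ B] {Φ : A → B} (hΦ : ContDiff ℝ 1 Φ) {γ : ℝ → A}
    (hγ : AbsolutelyContinuousOnInterval γ 0 1) :
    AbsolutelyContinuousOnInterval (fun t => Φ (γ t)) 0 1 := by
  obtain ⟨C, hC⟩ := hγ.exists_bound
  obtain ⟨K, hK⟩ := (hΦ.contDiffOn (s := Metric.closedBall 0 C)).exists_lipschitzOnWith
    (by decide) (convex_closedBall _ _) (isCompact_closedBall _ _)
  unfold AbsolutelyContinuousOnInterval at hγ ⊢
  refine squeeze_zero' ?_ ?_ (by simpa using hγ.const_mul (K : ℝ))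
  · exact Filter.Eventually.of_forall fun _ => Finset.sum_nonneg fun i _ => dist_nonneg
  rw [Filter.eventually_inf_principal]
  refine Filter.Eventually.of_forall fun E hE => ?_
  rw [Finset.mul_sum]
  refine Finset.sum_le_sum fun i hi => ?_
  exact hK.dist_le_mul _ (by simpa using hC _ (hE.1 i hi).1) _ (by simpa using hC _ (hE.1 i hi).2)

theorem dfst {A B : Type} [NormedAddCommGroup A] [NormedSpace ℝ A] [NormedAddCommGroup B]
    [NormedSpace ℝ B] {c : ℝ → A × B} {v : A × B} {t : ℝ} (h : HasDerivAt c v t) :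
    HasDerivAt (fun s => (c s).1) v.1 t :=
  (ContinuousLinearMap.fst ℝ A B).hasFDerivAt.comp_hasDerivAt t h

theorem dsnd {A B : Type} [NormedAddCommGroup A] [NormedSpace ℝ A] [NormedAddCommGroup B]
    [NormedSpace ℝ B] {c : ℝ → A × B} {v : A × B} {t : ℝ} (h : HasDerivAt c v t) :
    HasDerivAt (fun s => (c s).2) v.2 t :=
  (ContinuousLinearMap.snd ℝ A B).hasFDerivAt.comp_hasDerivAt t h

theorem Phi_deriv (ε : ℝ) {γ : ℝ → V0 × W0} {t : ℝ} {v : V0}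
    (h : HasDerivAt γ (v, (1 / 2 : ℝ) • S0.br (γ t).1 v) t) :
    HasDerivAt (fun s => Phi ε (γ s))
      ((v.1, (v.2.1 + ε * (v.1.1 * X1 (X1 f0) (pr (γ t)) + v.1.2 * X2 (X1 f0) (pr (γ t))),
          v.2.2 + ε * (v.1.1 * X1 (X2 f0) (pr (γ t)) + v.1.2 * X2 (X2 f0) (pr (γ t))))),
        (1 / 2 : ℝ) • S0.br (Phi ε (γ t)).1
        (v.1, (v.2.1 + ε * (v.1.1 * X1 (X1 f0) (pr (γ t)) + v.1.2 * X2 (X1 f0) (pr (γ t))),
          v.2.2 + ε * (v.1.1 * X1 (X2 f0) (pr (γ t)) + v.1.2 * X2 (X2 f0) (pr (γ t)))))) t := by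
  have s0 : Differentiable ℝ f0 := (f0_smooth 1).differentiable (by simp)
  have s1 : Differentiable ℝ (X1 f0) := (X1_smooth (n := 1) (f0_smooth _)).differentiable (by simp)
  have s2 : Differentiable ℝ (X2 f0) := (X2_smooth (n := 1) (f0_smooth _)).differentiable (by simp)
  have hx := dfst (dfst h)
  have hx1 := dfst hx
  have hx2 := dsnd hx
  have hp1 := dfst (dsnd (dfst h))
  have hp2 := dsnd (dsnd (dfst h))
  have ht := dfst (dsnd h)
  have hz := dsnd (dsnd h)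
  have hc : HasDerivAt (fun s => pr (γ s)) ((v.1.1, v.1.2),
      (1 / 2 : ℝ) * ((pr (γ t)).1.1 * v.1.2 - (pr (γ t)).1.2 * v.1.1)) t :=
    hx.prodMk ht
  have d0 := deriv_along s0 hc
  have d1 := deriv_along s1 hc
  have d2 := deriv_along s2 hc
  have hall := (hx.prodMk ((hp1.add (d1.const_mul ε)).prodMk (hp2.add (d2.const_mul ε)))).prodMk
    (ht.prodMk (hz.add ((d0.sub (((hx1.mul d1).add (hx2.mul d2)).const_mul (1 / 2))).const_mul ε)))
  refine HasDerivAt.congr_deriv hall ?_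
  refine Prod.ext rfl (Prod.ext rfl ?_)
  simp only [S0_br, b0, Phi, Prod.smul_snd, smul_eq_mul]
  ring

theorem Phi_curve : ∃ L : ℝ≥0, L ≠ 0 ∧ ∀ ε : ℝ, |ε| ≤ 1 → ∀ γ : ℝ → V0 × W0, S0.Horizontal γ →
    S0.Horizontal (fun s => Phi ε (γ s)) ∧
      curveLength (fun s => Phi ε (γ s)) ≤ L * curveLength γ := by
  obtain ⟨C, hC0, hC⟩ := hess_bound
  refine ⟨⟨1 + 2 * C, by positivity⟩, ?_, fun ε hε γ hγ => ⟨⟨ac_comp (Phi_smooth ε) hγ.1, ?_⟩, ?_⟩⟩
  · intro h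
    have : 1 + 2 * C = 0 := congrArg NNReal.toReal h
    linarith
  · exact hγ.2.mono fun t ⟨v, hv⟩ => ⟨_, Phi_deriv ε hv⟩
  · rw [curveLength, curveLength, ← lintegral_const_mul' _ _ ENNReal.coe_ne_top]
    refine lintegral_mono_ae (hγ.2.mono fun t ⟨v, hv⟩ => ?_)
    rw [(Phi_deriv ε hv).deriv, hv.deriv]
    simp only
    rw [enorm_eq_nnnorm, enorm_eq_nnnorm, ← ENNReal.coe_mul, ENNReal.coe_le_coe,
      ← NNReal.coe_le_coe]
    simp only [coe_nnnorm, NNReal.coe_mul, NNReal.coe_mk]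
    obtain ⟨c1, c2, c3, c4⟩ := hC (pr (γ t))
    have n0 := norm_nonneg v
    have n1 : ‖v.1‖ ≤ ‖v‖ := norm_fst_le v
    have n11 : |v.1.1| ≤ ‖v‖ := (norm_fst_le v.1).trans n1
    have n12 : |v.1.2| ≤ ‖v‖ := (norm_snd_le v.1).trans n1
    have n21 : |v.2.1| ≤ ‖v‖ := (norm_fst_le v.2).trans (norm_snd_le v)
    have n22 : |v.2.2| ≤ ‖v‖ := (norm_snd_le v.2).trans (norm_snd_le v)
    have key : ∀ a A B : ℝ, |a| ≤ ‖v‖ → |A| ≤ C → |B| ≤ C →
        ‖a + ε * (v.1.1 * A + v.1.2 * B)‖ ≤ (1 + 2 * C) * ‖v‖ := by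
      intro a A B ha hA hB
      rw [Real.norm_eq_abs]
      have e1 : |v.1.1 * A| ≤ ‖v‖ * C := by
        rw [abs_mul]; exact mul_le_mul n11 hA (abs_nonneg _) n0
      have e2 : |v.1.2 * B| ≤ ‖v‖ * C := by
        rw [abs_mul]; exact mul_le_mul n12 hB (abs_nonneg _) n0
      have e3 : |ε * (v.1.1 * A + v.1.2 * B)| ≤ 1 * (‖v‖ * C + ‖v‖ * C) := by
        rw [abs_mul]
        exact mul_le_mul hε ((abs_add_le _ _).trans (add_le_add e1 e2)) (abs_nonneg _) one_pos.le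
      have e4 := abs_add_le a (ε * (v.1.1 * A + v.1.2 * B))
      nlinarith
    refine max_le ?_ (max_le (key _ _ _ n21 c1 c2) (key _ _ _ n22 c3 c4))
    have : 0 ≤ C * ‖v‖ := by positivity
    change ‖v.1‖ ≤ (1 + 2 * C) * ‖v‖
    nlinarith

noncomputable def FG (ε : ℝ) (g : S0.Grp) : S0.Grp := ⟨(Phi ε (g.a, g.z)).1, (Phi ε (g.a, g.z)).2⟩

theorem FG_FG (ε : ℝ) (g : S0.Grp) : FG (-ε) (FG ε g) = g := by
  have := Phi_Phi ε (g.a, g.z)
  exact Step2.Grp.ext (congrArg Prod.fst this) (congrArg Prod.snd this)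

noncomputable def F0 : S0.Grp ≃ S0.Grp where
  toFun := FG 1
  invFun := FG (-1)
  left_inv := FG_FG 1
  right_inv := fun g => by simpa using FG_FG (-1) g

theorem FG_lip : ∃ L : ℝ≥0, ∀ ε : ℝ, |ε| ≤ 1 → ∀ g h,
    S0.dist (FG ε g) (FG ε h) ≤ L * S0.dist g h := by
  obtain ⟨L, hL0, hL⟩ := Phi_curve
  refine ⟨L, fun ε hε g h => ?_⟩
  have h0 : (L : ℝ≥0∞) ≠ 0 := by exact_mod_cast hL0
  conv_rhs => unfold Step2.dist
  simp only [ENNReal.mul_iInf_of_ne h0 ENNReal.coe_ne_top]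
  refine le_iInf fun γ => le_iInf fun hγ => le_iInf fun h1 => le_iInf fun h2 => ?_
  obtain ⟨k1, k2⟩ := hL ε hε γ hγ
  refine le_trans ?_ k2
  unfold Step2.dist
  refine iInf_le_of_le _ (iInf_le_of_le k1 (iInf_le_of_le ?_ (iInf_le_of_le ?_ le_rfl)))
  · simp only [h1]; rfl
  · simp only [h2]; rfl

theorem F0_bilip : S0.BiLipschitz F0 := by
  obtain ⟨L, hL⟩ := FG_lip
  refine ⟨L, fun g h => ⟨hL 1 (by simp) g h, ?_⟩⟩
  have := hL (-1) (by simp) (FG 1 g) (FG 1 h)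
  rwa [FG_FG, FG_FG] at this

theorem F0_not : ¬ PermutesCosets F0 (commutator S0.Grp) := by
  intro hP
  obtain ⟨h, hh⟩ := hP 1
  have key : ∀ t : ℝ, bump ((0, 0), t) = h.a.2.1 := by
    intro t
    have h1 : F0 ⟨0, (t, 0)⟩ ∈ {x | ∃ k ∈ commutator S0.Grp, x = h * k} := by
      rw [← hh]
      exact ⟨_, ⟨⟨0, (t, 0)⟩, (mem_comm_iff _).2 rfl, (one_mul _).symm⟩, rfl⟩
    obtain ⟨k, hk, e⟩ := h1
    have h2 := congrArg (fun x : S0.Grp => x.a.2.1) e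
    simp only [mul_a, (mem_comm_iff k).1 hk, add_zero] at h2
    rw [← h2, ← X1_f0]
    change _ = (0 : ℝ) + 1 * X1 f0 ((0, 0), t)
    ring
  have a1 : bump (((0, 0), 0) : E0) = 1 :=
    bump.one_of_mem_closedBall (by
      change _ ∈ Metric.closedBall _ 1
      exact Metric.mem_closedBall_self one_pos.le)
  have a2 : bump (((0, 0), 3) : E0) = 0 :=
    bump.zero_of_le_dist (by
      change (2 : ℝ) ≤ _
      rw [dist_zero_right]
      have := norm_snd_le (((0, 0), 3) : E0)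
      simp only [Real.norm_ofNat] at this
      linarith)
  have := (key 0).trans (key 3).symm
  rw [a1, a2] at this
  exact one_ne_zero this

theorem dist_lt_top (g h : S0.Grp) : S0.dist g h < ⊤ := by
  obtain ⟨⟨⟨x1, x2⟩, ⟨p1, p2⟩⟩, ⟨t0, z0⟩⟩ := g
  obtain ⟨⟨⟨y1, y2⟩, ⟨q1, q2⟩⟩, ⟨t1, z1⟩⟩ := h
  set v1 := y1 - x1 with hv1
  set v2 := y2 - x2 with hv2
  set v3 := q1 - p1 with hv3
  set v4 := q2 - p2 with hv4
  set τ := 35 * ((x1 * v2 - x2 * v1) - 2 * (t1 - t0)) with hτ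
  set ζ := -(35 * ((p1 * v1 + p2 * v2 - v3 * x1 - v4 * x2) - 2 * (z1 - z0))) with hζ
  let Q1 : ℝ → ℝ := fun s => s - 3 * s ^ 2 + 2 * s ^ 3
  let Q2 : ℝ → ℝ := fun s => s - 6 * s ^ 2 + 10 * s ^ 3 - 5 * s ^ 4
  let R1 : ℝ → ℝ := fun s => -s ^ 3 + s ^ 4
  let R2 : ℝ → ℝ := fun s => -2 * s ^ 3 + 5 * s ^ 4 - 3 * s ^ 5
  let R3 : ℝ → ℝ := fun s => -s ^ 3 + 4 * s ^ 4 - (33 / 5) * s ^ 5 + 5 * s ^ 6 - (10 / 7) * s ^ 7
  let γ : ℝ → V0 × W0 := fun s =>
    (((x1 + s * v1 + Q1 s, x2 + s * v2 + τ * Q2 s), (p1 + s * v3 + ζ * Q2 s, p2 + s * v4)),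
      (t0 + (1 / 2) * (s * (x1 * v2 - x2 * v1) - Q1 s * x2 + Q2 s * (x1 * τ) - R1 s * v2 +
          R2 s * (v1 * τ) + R3 s * τ),
        z0 + (1 / 2) * (s * (p1 * v1 + p2 * v2 - v3 * x1 - v4 * x2) + Q1 s * p1 +
          Q2 s * (p2 * τ - ζ * x1) + R1 s * v3 + R2 s * (v4 * τ - ζ * v1) - R3 s * ζ)))
  have hs : ContDiff ℝ 1 γ := by
    simp only [γ, Q1, Q2, R1, R2, R3]
    fun_prop
  have hd : ∀ s, HasDerivAt γ (deriv γ s) s := fun s =>
    (hs.differentiable (by simp) s).hasDerivAt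
  have dQ1 : ∀ s, HasDerivAt Q1 (1 - 6 * s + 6 * s ^ 2) s := fun s => by
    have := ((hasDerivAt_id s).sub ((hasDerivAt_pow 2 s).const_mul 3)).add
      ((hasDerivAt_pow 3 s).const_mul 2)
    refine HasDerivAt.congr_deriv this ?_
    norm_num; ring
  have dQ2 : ∀ s, HasDerivAt Q2 (1 - 12 * s + 30 * s ^ 2 - 20 * s ^ 3) s := fun s => by
    have := (((hasDerivAt_id s).sub ((hasDerivAt_pow 2 s).const_mul 6)).add
      ((hasDerivAt_pow 3 s).const_mul 10)).sub ((hasDerivAt_pow 4 s).const_mul 5)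
    refine HasDerivAt.congr_deriv this ?_
    norm_num; ring
  have dR1 : ∀ s, HasDerivAt R1 (-3 * s ^ 2 + 4 * s ^ 3) s := fun s => by
    have := (hasDerivAt_pow 3 s).neg.add (hasDerivAt_pow 4 s)
    refine HasDerivAt.congr_deriv this ?_
    norm_num
  have dR2 : ∀ s, HasDerivAt R2 (-6 * s ^ 2 + 20 * s ^ 3 - 15 * s ^ 4) s := fun s => by
    have := (((hasDerivAt_pow 3 s).const_mul (-2)).add
      ((hasDerivAt_pow 4 s).const_mul 5)).sub ((hasDerivAt_pow 5 s).const_mul 3)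
    refine HasDerivAt.congr_deriv this ?_
    norm_num; ring
  have dR3 : ∀ s, HasDerivAt R3
      (-3 * s ^ 2 + 16 * s ^ 3 - 33 * s ^ 4 + 30 * s ^ 5 - 10 * s ^ 6) s := fun s => by
    have := ((((hasDerivAt_pow 3 s).neg.add ((hasDerivAt_pow 4 s).const_mul 4)).sub
      ((hasDerivAt_pow 5 s).const_mul (33 / 5))).add ((hasDerivAt_pow 6 s).const_mul 5)).sub
      ((hasDerivAt_pow 7 s).const_mul (10 / 7))
    refine HasDerivAt.congr_deriv this ?_
    norm_num; ring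
  have hH : S0.Horizontal γ := by
    refine ⟨hs.contDiffOn.absolutelyContinuousOnInterval, Filter.Eventually.of_forall fun s => ?_⟩
    have i := hasDerivAt_id' s
    have hall := ((((((i.mul_const v1).const_add x1).add (dQ1 s)).prodMk
      (((i.mul_const v2).const_add x2).add ((dQ2 s).const_mul τ))).prodMk
      ((((i.mul_const v3).const_add p1).add ((dQ2 s).const_mul ζ)).prodMk
        ((i.mul_const v4).const_add p2))).prodMk
      (((((((((i.mul_const (x1 * v2 - x2 * v1)).sub ((dQ1 s).mul_const x2)).add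
        ((dQ2 s).mul_const (x1 * τ))).sub ((dR1 s).mul_const v2)).add
        ((dR2 s).mul_const (v1 * τ))).add ((dR3 s).mul_const τ)).const_mul (1 / 2)).const_add
          t0).prodMk
      ((((((((i.mul_const (p1 * v1 + p2 * v2 - v3 * x1 - v4 * x2)).add
        ((dQ1 s).mul_const p1)).add ((dQ2 s).mul_const (p2 * τ - ζ * x1))).add
        ((dR1 s).mul_const v3)).add ((dR2 s).mul_const (v4 * τ - ζ * v1))).sub
        ((dR3 s).mul_const ζ)).const_mul (1 / 2)).const_add z0)))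
    refine ⟨_, HasDerivAt.congr_deriv hall (Prod.ext rfl (Prod.ext ?_ ?_))⟩
    · simp only [S0_br, b0, γ, Q1, Q2, Prod.smul_fst, smul_eq_mul]
      ring
    · simp only [S0_br, b0, γ, Q1, Q2, Prod.smul_snd, smul_eq_mul]
      ring
  have hfin : curveLength γ < ⊤ := by
    have hc : Continuous (fun s => (deriv γ s).1) := (hs.continuous_deriv le_rfl).fst
    exact (hc.integrableOn_Icc (a := 0) (b := 1)).hasFiniteIntegral
  refine lt_of_le_of_lt ?_ hfin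
  unfold Step2.dist
  refine iInf_le_of_le γ (iInf_le_of_le hH (iInf_le_of_le ?_ (iInf_le_of_le ?_ le_rfl)))
  · simp [γ, Q1, Q2, R1, R2, R3]
  · simp only [γ, Q1, Q2, R1, R2, R3, Prod.mk.injEq]
    refine ⟨⟨⟨?_, ?_⟩, ?_, ?_⟩, ?_, ?_⟩
    · rw [hv1]; ring
    · rw [hv2]; ring
    · rw [hv3]; ring
    · rw [hv4]; ring
    · rw [hτ]; ring
    · rw [hζ]; ring

end Pool.Agent.H302Z.Ca
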