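import Mathlib

set_option autoImplicit false

open MeasureTheory Set
open scoped ENNReal NNReal

namespace Pool.Agent.H302Z.Ca

/-- A stratified Lie algebra `V ⊕ W` of step at most two: an alternating bilinear bracket
`V × V → W` whose values span `W` (all other brackets vanish). -/
structure Step2 (V W : Type) [AddCommGroup V] [Module ℝ V] [AddCommGroup W] [Module ℝ W] where
  /-- the bracket -/
  br : V →ₗ[ℝ] V →ₗ[ℝ] W
  alt : ∀ v, br v v = 0
  span_top : Submodule.span ℝ {w | ∃ u v, br u v = w} = ⊤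

section Group

variable {V W : Type} [AddCommGroup V] [Module ℝ V] [AddCommGroup W] [Module ℝ W]

/-- The simply connected Lie group of `S`, in exponential coordinates `(a, z) ∈ V × W`. -/
@[ext] structure Step2.Grp (S : Step2 V W) where
  /-- first layer coordinate -/
  a : V
  /-- second layer coordinate -/
  z : W

/-- The Baker-Campbell-Hausdorff group law `(a, z) (a', z') = (a + a', z + z' + [a, a'] / 2)`. -/
noncomputable instance (S : Step2 V W) : Group S.Grp where
  mul g h := ⟨g.a + h.a, g.z + h.z + (1 / 2 : ℝ) • S.br g.a h.a⟩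
  one := ⟨0, 0⟩
  inv g := ⟨-g.a, -g.z⟩
  mul_assoc g h k := by
    refine Step2.Grp.ext (add_assoc _ _ _) ?_
    change g.z + h.z + (1 / 2 : ℝ) • S.br g.a h.a + k.z + (1 / 2 : ℝ) • S.br (g.a + h.a) k.a =
      g.z + (h.z + k.z + (1 / 2 : ℝ) • S.br h.a k.a) + (1 / 2 : ℝ) • S.br g.a (h.a + k.a)
    simp only [map_add, LinearMap.add_apply, smul_add]
    abel
  one_mul g := by
    refine Step2.Grp.ext (zero_add _) ?_
    change 0 + g.z + (1 / 2 : ℝ) • S.br 0 g.a = g.z
    simp
  mul_one g := by
    refine Step2.Grp.ext (add_zero _) ?_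
    change g.z + 0 + (1 / 2 : ℝ) • S.br g.a 0 = g.z
    simp
  inv_mul_cancel g := by
    refine Step2.Grp.ext (neg_add_cancel _) ?_
    change -g.z + g.z + (1 / 2 : ℝ) • S.br (-g.a) g.a = 0
    simp [S.alt]

end Group

section Metric

variable {V W : Type} [NormedAddCommGroup V] [NormedSpace ℝ V] [NormedAddCommGroup W]
  [NormedSpace ℝ W]

/-- A horizontal curve on `[0, 1]`, in exponential coordinates: absolutely continuous and almost
everywhere tangent to the left-invariant distribution, which at `(a, z)` consists of the vectors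
`(v, [a, v] / 2)`, `v ∈ V`. -/
def Step2.Horizontal (S : Step2 V W) (γ : ℝ → V × W) : Prop :=
  AbsolutelyContinuousOnInterval γ 0 1 ∧
    ∀ᵐ t ∂(volume.restrict (Icc (0 : ℝ) 1)), ∃ v : V,
      HasDerivAt γ (v, (1 / 2 : ℝ) • S.br (γ t).1 v) t

/-- The length of a horizontal curve: the integral of the norm of its horizontal velocity. -/
noncomputable def curveLength (γ : ℝ → V × W) : ℝ≥0∞ :=
  ∫⁻ t in Icc (0 : ℝ) 1, ‖(deriv γ t).1‖ₑ

/-- The Carnot distance: the infimum of the lengths of horizontal curves from `g` to `h`. -/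
noncomputable def Step2.dist (S : Step2 V W) (g h : S.Grp) : ℝ≥0∞ :=
  ⨅ (γ : ℝ → V × W) (_ : S.Horizontal γ) (_ : γ 0 = (g.a, g.z)) (_ : γ 1 = (h.a, h.z)),
    curveLength γ

/-- `F` is biLipschitz for the Carnot distance. -/
def Step2.BiLipschitz (S : Step2 V W) (F : S.Grp → S.Grp) : Prop :=
  ∃ L : ℝ≥0, ∀ g h, S.dist (F g) (F h) ≤ L * S.dist g h ∧ S.dist g h ≤ L * S.dist (F g) (F h)

end Metric

/-- The Heisenberg Lie algebra of dimension `2 (n + 1) + 1`, with `[X k, Y k] = Z`. -/
def heis (n : ℕ) : Step2 ((Fin (n + 1) → ℝ) × (Fin (n + 1) → ℝ)) ℝ where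
  br := LinearMap.mk₂ ℝ (fun u v => ∑ k, (u.1 k * v.2 k - u.2 k * v.1 k))
    (fun u u' v => by
      simp only [Prod.fst_add, Prod.snd_add, Pi.add_apply, ← Finset.sum_add_distrib]
      exact Finset.sum_congr rfl fun k _ => by ring)
    (fun c u v => by
      simp only [Prod.smul_fst, Prod.smul_snd, Pi.smul_apply, smul_eq_mul, Finset.mul_sum]
      exact Finset.sum_congr rfl fun k _ => by ring)
    (fun u v v' => by
      simp only [Prod.fst_add, Prod.snd_add, Pi.add_apply, ← Finset.sum_add_distrib]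
      exact Finset.sum_congr rfl fun k _ => by ring)
    (fun c u v => by
      simp only [Prod.smul_fst, Prod.smul_snd, Pi.smul_apply, smul_eq_mul, Finset.mul_sum]
      exact Finset.sum_congr rfl fun k _ => by ring)
  alt := fun v => by
    simp only [LinearMap.mk₂_apply]
    exact Finset.sum_eq_zero fun k _ => by ring
  span_top := by
    refine eq_top_iff.2 fun w _ => Submodule.subset_span ⟨(Pi.single 0 1, 0), (0, Pi.single 0 w), ?_⟩
    simp [Fin.sum_univ_succ]

/-- `F` permutes the left cosets of the subgroup `K`. -/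
def PermutesCosets {G : Type} [Group G] (F : G → G) (K : Subgroup G) : Prop :=
  ∀ g : G, ∃ h : G, F '' {x | ∃ k ∈ K, x = g * k} = {x | ∃ k ∈ K, x = h * k}

end Pool.Agent.H302Z.Ca
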