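import Mathlib

set_option autoImplicit false

namespace Pool.Agent.H302Z.Cis

/-- `G` is CIS: every inclusion-maximal clique meets every inclusion-maximal stable set. -/
def CIS {V : Type} (G : SimpleGraph V) : Prop :=
  ∀ C S : Set V, Maximal G.IsClique C → Maximal G.IsIndepSet S → (C ∩ S).Nonempty

end Pool.Agent.H302Z.Cis
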