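import Pool.Agent.H302Z.TriDefs
import Pool.Agent.H609R2.EqPoly
import Pool.Agent.NPC.Dec

set_option autoImplicit false

namespace Pool.Agent.H302Z.Tri

open Pool.Agent.NPC Pool.Agent.H622R2 Pool.Agent.H609R2

theorem TriangleGraph.of_iso {V W : Type} {G : SimpleGraph V} {H : SimpleGraph W} (e : G ≃g H)
    (h : TriangleGraph H) : TriangleGraph G := by
  intro S hS u v huv hu hv
  obtain ⟨_, ⟨s, hs, rfl⟩, h1, h2⟩ := h (e '' S) ((maximal_image e S).2 hS) (e u) (e v)
    ((e.map_adj_iff).2 huv)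
    (fun ⟨x, hx, hxu⟩ => hu (e.injective hxu ▸ hx))
    (fun ⟨x, hx, hxv⟩ => hv (e.injective hxv ▸ hx))
  exact ⟨s, hs, (e.map_adj_iff).1 h1, (e.map_adj_iff).1 h2⟩

theorem triangle_of_edgeStrong {V : Type} {G : SimpleGraph V} (h : EdgeStrong G) :
    TriangleGraph G := by
  intro S hS u v huv hu hv
  obtain ⟨C, ⟨hC1, hC2⟩, huC, hvC⟩ := h u v huv
  obtain ⟨s, hsC, hsS⟩ := hC2 S hS
  exact ⟨s, hsS, hC1 hsC huC (fun e => hu (e ▸ hsS)), hC1 hsC hvC (fun e => hv (e ▸ hsS))⟩

/-- If the formula is satisfiable, the triangle condition fails: the assignment is a maximal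
stable set, and the edge between the other value of the dummy variable and the triple with the
assigned value has no common neighbour in it. -/
theorem not_triangle_of_sat {n m : ℕ} {L : ℕ → ℕ → Bool → Bool} {vs : List Lb}
    (hvs : ∀ x, x ∈ vs ↔ ValidE n m L x) (hm : 0 < m)
    (i0 : ℕ) (hi0 : i0 < n) (hd : ∀ k a, L k i0 a = false) (τ : ℕ → Bool)
    (hτ : ∀ k < m, ∃ i < n, L k i (τ i) = true) : ¬ TriangleGraph (labGraph vs (adjE L)) := by
  intro h
  obtain ⟨s, ⟨i, hi⟩, h1, h2⟩ := h _ (maximal_sat hvs τ hτ)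
    ⟨Sum.inl (i0, !τ i0), (hvs _).2 hi0⟩ ⟨Sum.inr (i0, 0, τ i0), (hvs _).2 ⟨hi0, hm, hd _ _⟩⟩
    ((adj_iff _ _).2 ((adjP_lr _ _ _ _ _).2 (Or.inl ⟨rfl, by simp⟩)))
    (by
      rintro ⟨i, hi⟩
      simp only [Sum.inl.injEq, Prod.mk.injEq] at hi
      obtain ⟨rfl, hi⟩ := hi
      simp at hi)
    (by
      rintro ⟨i, hi⟩
      simp at hi)
  rw [adj_iff, hi] at h1 h2
  have h3 := ((adjP_ll _ _ _ _).1 h1).1
  subst h3
  rcases (adjP_lr _ _ _ _ _).1 h2 with h4 | h4
  · exact h4.2 rfl
  · rw [hd] at h4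
    exact absurd h4 (by simp)

theorem triRed_correct {φ : List C3} (h1 : Distinct3 φ) (h2 : Bounded3 φ) (h3 : φ ≠ []) :
    SAT3 φ ↔ ¬ TriangleGraph (matGraph (eqRed φ)) := by
  constructor
  · intro hsat h
    have e := matIso (labE φ) (adjE (satL φ)) (labE_nodup φ)
    obtain ⟨τ, hτ⟩ := (SAT3_iff h2).1 hsat
    exact not_triangle_of_sat (mem_labE φ) (List.length_pos_iff.2 h3)
      (3 * φ.length) (by omega) (satL_dummy h2) τ hτ (TriangleGraph.of_iso e.symm h)
  · intro h
    by_contra hun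
    exact h (triangle_of_edgeStrong (eqRed_unsat h1 h2 hun))

theorem hardI_not_triangle :
    HardI (fun M : List (List Bool) => ¬ TriangleGraph (matGraph M)) :=
  (hardPr_SAT3b.trans (Pr' := fun _ => True) eqRed_poly (fun _ _ => trivial)
    (fun _ h => triRed_correct h.1 h.2.1 h.2.2)).toHardI

/-! ### Membership in coNP -/

def adjM (M : List (List Bool)) (i j : ℕ) : Bool :=
  decide (i ≠ j) && ((M.getD i []).getD j false || (M.getD j []).getD i false)

def chk (p : List (List Bool) × List Bool) : Bool :=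
  ((List.range p.1.length).all fun i => (List.range p.1.length).all fun j =>
      !(p.2.getD i false && p.2.getD j false && adjM p.1 i j)) &&
  ((List.range p.1.length).all fun i => p.2.getD i false ||
      (List.range p.1.length).any fun j => p.2.getD j false && adjM p.1 i j) &&
  ((List.range p.1.length).any fun u => (List.range p.1.length).any fun v =>
      adjM p.1 u v && !(p.2.getD u false) && !(p.2.getD v false) &&
        (List.range p.1.length).all fun k =>
          !(p.2.getD k false && adjM p.1 k u && adjM p.1 k v))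

theorem adjM_poly {α : Type} [TEnc α] {M : α → List (List Bool)} {i j : α → ℕ}
    (hM : Poly M) (hi : Poly i) (hj : Poly j) : Poly (fun a => adjM (M a) (i a) (j a)) := by
  unfold adjM
  fun_prop

theorem rangeLen_poly {α : Type} [TEnc α] {M : α → List (List Bool)} (hM : Poly M) :
    Poly (fun a => List.range (M a).length) := Poly.range_length hM

attribute [local fun_prop] adjM_poly rangeLen_poly

theorem chk_poly : Poly chk := by
  unfold chk
  fun_prop

theorem adjM_iff (M : List (List Bool)) (i j : Fin M.length) :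
    adjM M i j = true ↔ (matGraph M).Adj i j := by
  simp [adjM, matGraph, entry, Fin.ext_iff]

theorem maximal_iff {V : Type} (G : SimpleGraph V) (S : Set V) :
    Maximal G.IsIndepSet S ↔
      (∀ a ∈ S, ∀ b ∈ S, ¬ G.Adj a b) ∧ ∀ x, x ∉ S → ∃ y ∈ S, G.Adj x y := by
  constructor
  · rintro ⟨h1, h2⟩
    refine ⟨fun a ha b hb hab => h1 ha hb (G.ne_of_adj hab) hab, fun x hx => ?_⟩
    by_contra hcon
    push Not at hcon
    have h3 : G.IsIndepSet (insert x S) := by
      intro a ha b hb hab hadj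
      rcases ha with ha | ha <;> rcases hb with hb | hb
      · exact hab (ha.trans hb.symm)
      · exact hcon b hb (ha ▸ hadj)
      · exact hcon a ha (hb ▸ hadj.symm)
      · exact h1 ha hb hab hadj
    exact hx (h2 h3 (Set.subset_insert x S) (Set.mem_insert x S))
  · rintro ⟨h1, h2⟩
    refine ⟨fun a ha b hb _ => h1 a ha b hb, fun T hT hST x hx => ?_⟩
    by_contra hxS
    obtain ⟨y, hy, hxy⟩ := h2 x hxS
    exact hT hx (hST hy) (G.ne_of_adj hxy) hxy

theorem chk_iff (M : List (List Bool)) (s : List Bool) :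
    chk (M, s) = true ↔
      Maximal (matGraph M).IsIndepSet {i : Fin M.length | s.getD i false = true} ∧
      ∃ u v : Fin M.length, (matGraph M).Adj u v ∧ ¬ s.getD u false = true ∧
        ¬ s.getD v false = true ∧ ∀ k : Fin M.length, s.getD k false = true →
          (matGraph M).Adj k u → ¬ (matGraph M).Adj k v := by
  rw [maximal_iff]
  simp only [chk, Bool.and_eq_true, List.all_eq_true, List.any_eq_true, List.mem_range,
    Bool.not_eq_eq_eq_not, Bool.not_true, Bool.or_eq_true, Set.mem_setOf_eq, ← adjM_iff]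
  constructor
  · rintro ⟨⟨h1, h2⟩, u, hu, v, hv, ⟨⟨h3, h4⟩, h5⟩, h6⟩
    refine ⟨⟨fun a ha b hb hab => ?_, fun x hx => ?_⟩, ⟨u, hu⟩, ⟨v, hv⟩, h3,
      Bool.eq_false_iff.1 h4, Bool.eq_false_iff.1 h5, fun k hk hku hkv => ?_⟩
    · have := h1 a a.2 b b.2
      rw [ha, hb, hab] at this
      simp at this
    · rcases h2 x x.2 with h | ⟨j, hj, h, h'⟩
      · exact absurd h hx
      · exact ⟨⟨j, hj⟩, h, h'⟩
    · have := h6 k k.2
      simp only at hku hkv
      rw [hk, hku, hkv] at this
      simp at this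
  · rintro ⟨⟨h1, h2⟩, u, v, h3, h4, h5, h6⟩
    refine ⟨⟨fun a ha b hb => ?_, fun x hx => ?_⟩, u, u.2, v, v.2,
      ⟨⟨h3, by simpa using h4⟩, by simpa using h5⟩, fun k hk => ?_⟩
    · by_contra hcon
      simp only [Bool.not_eq_false, Bool.and_eq_true] at hcon
      exact h1 ⟨a, ha⟩ hcon.1.1 ⟨b, hb⟩ hcon.1.2 hcon.2
    · by_cases hs : s.getD x false = true
      · exact Or.inl hs
      · obtain ⟨y, hy, hy'⟩ := h2 ⟨x, hx⟩ hs
        exact Or.inr ⟨y, y.2, hy, hy'⟩
    · by_contra hcon
      simp only [Bool.not_eq_false, Bool.and_eq_true] at hcon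
      exact h6 ⟨k, hk⟩ hcon.1.1 hcon.1.2 hcon.2

theorem triangle_coNP : InCoNPP (fun M : List (List Bool) => TriangleGraph (matGraph M)) := by
  refine inCoNPP_of chk_poly (Polynomial.C 4 * Polynomial.X + Polynomial.C 1) fun M => ?_
  constructor
  · intro h
    classical
    unfold TriangleGraph at h
    push Not at h
    obtain ⟨S, hS, u, v, huv, hu, hv, hno⟩ := h
    have hs : ∀ i : Fin M.length,
        (List.ofFn (fun i : Fin M.length => decide (i ∈ S))).getD i false = true ↔ i ∈ S := by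
      intro i
      rw [List.getD_eq_getElem?_getD, List.getElem?_eq_getElem (by simp)]
      simp
    refine ⟨List.ofFn (fun i : Fin M.length => decide (i ∈ S)), ?_, ?_⟩
    · have h1 := sz_listBool_le (List.ofFn (fun i : Fin M.length => decide (i ∈ S)))
      have h2 := length_lt_sz M
      simp only [List.length_ofFn] at h1
      simp only [Polynomial.eval_add, Polynomial.eval_mul, Polynomial.eval_C, Polynomial.eval_X]
      omega
    · rw [chk_iff]
      simp only [hs]
      exact ⟨hS, u, v, huv, hu, hv, hno⟩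
  · rintro ⟨s, _, hs⟩ h
    rw [chk_iff] at hs
    obtain ⟨hS, u, v, huv, hu, hv, hno⟩ := hs
    obtain ⟨k, hk, h1, h2⟩ := h _ hS u v huv hu hv
    exact hno k hk h1 h2

end Pool.Agent.H302Z.Tri
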