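import Pool.Agent.H302Z.CisDefs
import Pool.Agent.H302Z.TriProof

set_option autoImplicit false

namespace Pool.Agent.H302Z.Cis

open Pool.Agent.NPC Pool.Agent.H622R2 Pool.Agent.H609R2 Pool.Agent.H302Z.Tri

theorem maxClique_iff {V : Type} (G : SimpleGraph V) (C : Set V) :
    Maximal G.IsClique C ↔
      (∀ a ∈ C, ∀ b ∈ C, a ≠ b → G.Adj a b) ∧ ∀ x, x ∉ C → ∃ y ∈ C, ¬ G.Adj x y := by
  constructor
  · rintro ⟨h1, h2⟩
    refine ⟨fun a ha b hb hab => h1 ha hb hab, fun x hx => ?_⟩
    by_contra hcon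
    push Not at hcon
    have h3 : G.IsClique (insert x C) := by
      intro a ha b hb hab
      rcases ha with ha | ha <;> rcases hb with hb | hb
      · exact absurd (ha.trans hb.symm) hab
      · exact ha ▸ hcon b hb
      · exact hb ▸ (hcon a ha).symm
      · exact h1 ha hb hab
    exact hx (h2 h3 (Set.subset_insert x C) (Set.mem_insert x C))
  · rintro ⟨h1, h2⟩
    refine ⟨fun a ha b hb hab => h1 a ha b hb hab, fun T hT hST x hx => ?_⟩
    by_contra hxS
    obtain ⟨y, hy, hxy⟩ := h2 x hxS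
    exact hxy (hT hx (hST hy) (fun e => hxS (e ▸ hy)))

theorem CIS.of_iso {V W : Type} {G : SimpleGraph V} {H : SimpleGraph W} (e : G ≃g H)
    (h : CIS H) : CIS G := by
  intro C S hC hS
  have hC' : Maximal H.IsClique (e '' C) := by
    rw [maxClique_iff] at hC ⊢
    refine ⟨?_, fun x hx => ?_⟩
    · rintro _ ⟨a, ha, rfl⟩ _ ⟨b, hb, rfl⟩ hab
      exact (e.map_adj_iff).2 (hC.1 a ha b hb (fun h => hab (by rw [h])))
    · obtain ⟨y, hy, hxy⟩ := hC.2 (e.symm x) (fun h => hx ⟨_, h, by simp⟩)
      refine ⟨e y, ⟨y, hy, rfl⟩, fun h => hxy ?_⟩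
      rw [← e.map_adj_iff]
      simpa using h
  obtain ⟨_, ⟨a, ha, rfl⟩, ⟨b, hb, hab⟩⟩ := h _ _ hC' ((maximal_image e S).2 hS)
  exact ⟨a, ha, e.injective hab ▸ hb⟩

theorem CIS.triangle {V : Type} [Finite V] {G : SimpleGraph V} (h : CIS G) :
    TriangleGraph G := by
  intro S hS u v huv hu hv
  have h0 : G.IsClique ({u, v} : Set V) := by
    rw [SimpleGraph.isClique_pair]
    exact fun _ => huv
  obtain ⟨C, hle, hC⟩ := Finite.exists_le_maximal (p := G.IsClique) h0
  obtain ⟨s, hsC, hsS⟩ := h C S hC hS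
  exact ⟨s, hsS, hC.1 hsC (hle (by simp)) (fun e => hu (e ▸ hsS)),
    hC.1 hsC (hle (by simp)) (fun e => hv (e ▸ hsS))⟩

/-- If the formula is unsatisfiable, every maximal clique meets every maximal stable set. -/
theorem cis_of_unsat {n m : ℕ} {L : ℕ → ℕ → Bool → Bool} {vs : List Lb}
    (hvs : ∀ x, x ∈ vs ↔ ValidE n m L x) (hn : 0 < n)
    (hL : ∀ k i, L k i true = true → L k i false = false)
    (hun : ∀ τ : ℕ → Bool, ∃ k < m, ∀ i < n, L k i (τ i) = false) :
    CIS (labGraph vs (adjE L)) := by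
  intro C S hC hS
  obtain ⟨τ, k, h⟩ := total_of_unsat hvs hn hL hun hS
  rw [maxClique_iff] at hC
  by_contra hdis
  have hd : ∀ x, In C x → ¬ In S x := by
    rintro x ⟨hx, hxC⟩ ⟨_, hxS⟩
    exact hdis ⟨⟨x, hx⟩, hxC, hxS⟩
  have hadj : ∀ x y, In C x → In C y → x ≠ y → AdjP L x y := by
    rintro x y ⟨hx, hxC⟩ ⟨hy, hyC⟩ hxy
    exact (adj_iff _ _).1 (hC.1 _ hxC _ hyC (fun e => hxy (congrArg Subtype.val e)))
  -- an element of `S` has a non-neighbour in `C`
  have hno : ∀ x, In S x → ¬ ∀ y, In C y → AdjP L x y := by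
    rintro x ⟨hx, hxS⟩ hall
    obtain ⟨y, hy, hxy⟩ := hC.2 ⟨x, hx⟩ (fun hxC => hd x ⟨hx, hxC⟩ ⟨hx, hxS⟩)
    exact hxy ((adj_iff _ _).2 (hall y.1 ⟨y.2, hy⟩))
  have hlit : ∀ i a, In C (Sum.inl (i, a)) → a ≠ τ i := by
    rintro i a hi rfl
    exact hd _ hi (h i ((hvs _).1 hi.1)).1
  have htri : ∀ i a, In C (Sum.inr (i, k, a)) → a ≠ τ i := by
    rintro i a hi rfl
    exact hd _ hi (h i ((hvs _).1 hi.1).1).2
  by_cases hA : ∀ i a, In C (Sum.inl (i, a)) → L k i a = true
  · by_cases hB : ∃ j b, In C (Sum.inr (j, k, b))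
    · obtain ⟨j, b, hj⟩ := hB
      refine hno _ (h j ((hvs _).1 hj.1).1).2 ?_
      rintro (⟨i, a⟩ | ⟨i, l, c⟩) hy
      · exact ((adjP_lr _ _ _ _ _).2 (Or.inr (hA i a hy))).symm
      · rw [adjP_rr]
        by_cases hl : k = l
        · subst hl
          right
          have hij : j = i := by
            by_contra hij
            have := hadj _ _ hj hy (by simp [hij])
            rw [adjP_rr] at this
            rcases this with h1 | h1
            · exact h1 rfl
            · exact hij h1.1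
          subst hij
          exact ⟨rfl, (htri _ _ hy).symm⟩
        · exact Or.inl hl
    · push Not at hB
      refine hno _ (h 0 hn).2 ?_
      rintro (⟨i, a⟩ | ⟨i, l, c⟩) hy
      · exact ((adjP_lr _ _ _ _ _).2 (Or.inr (hA i a hy))).symm
      · rw [adjP_rr]
        left
        rintro rfl
        exact hB _ _ hy
  · push Not at hA
    obtain ⟨i, a, hi, hLa⟩ := hA
    refine hno _ (h i ((hvs _).1 hi.1)).2 ?_
    rintro (⟨j, b⟩ | ⟨j, l, c⟩) hy
    · have hij : j = i := by
        by_contra hij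
        have := hadj _ _ hy hi (by simp [hij])
        rw [adjP_ll] at this
        exact hij this.1
      subst hij
      exact ((adjP_lr _ _ _ _ _).2 (Or.inl ⟨rfl, hlit _ _ hy⟩)).symm
    · rw [adjP_rr]
      by_cases hl : k = l
      · subst hl
        have := hadj _ _ hi hy (by simp)
        rw [adjP_lr] at this
        rcases this with ⟨rfl, _⟩ | h1
        · exact Or.inr ⟨rfl, (htri _ _ hy).symm⟩
        · exact absurd h1 hLa
      · exact Or.inl hl

theorem cisRed_correct {φ : List C3} (h1 : Distinct3 φ) (h2 : Bounded3 φ) (h3 : φ ≠ []) :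
    SAT3 φ ↔ ¬ CIS (matGraph (eqRed φ)) := by
  constructor
  · intro hsat h
    exact (triRed_correct h1 h2 h3).1 hsat h.triangle
  · intro h
    by_contra hun
    apply h
    have e := matIso (labE φ) (adjE (satL φ)) (labE_nodup φ)
    rw [SAT3_iff h2] at hun
    push Not at hun
    refine CIS.of_iso e (cis_of_unsat (mem_labE φ) (by omega) (satL_consistent h1) ?_)
    intro τ
    obtain ⟨k, hk, h⟩ := hun τ
    exact ⟨k, hk, fun i hi => by simpa using h i hi⟩

theorem hardI_not_cis : HardI (fun M : List (List Bool) => ¬ CIS (matGraph M)) :=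
  (hardPr_SAT3b.trans (Pr' := fun _ => True) eqRed_poly (fun _ _ => trivial)
    (fun _ h => cisRed_correct h.1 h.2.1 h.2.2)).toHardI

/-! ### Membership in coNP -/

def chk (p : List (List Bool) × (List Bool × List Bool)) : Bool :=
  ((List.range p.1.length).all fun i => (List.range p.1.length).all fun j =>
      !(p.2.1.getD i false && p.2.1.getD j false && decide (i ≠ j) && !(adjM p.1 i j))) &&
  ((List.range p.1.length).all fun i => p.2.1.getD i false ||
      (List.range p.1.length).any fun j => p.2.1.getD j false && !(adjM p.1 i j)) &&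
  ((List.range p.1.length).all fun i => (List.range p.1.length).all fun j =>
      !(p.2.2.getD i false && p.2.2.getD j false && adjM p.1 i j)) &&
  ((List.range p.1.length).all fun i => p.2.2.getD i false ||
      (List.range p.1.length).any fun j => p.2.2.getD j false && adjM p.1 i j) &&
  ((List.range p.1.length).all fun i => !(p.2.1.getD i false && p.2.2.getD i false))

attribute [local fun_prop] adjM_poly rangeLen_poly

theorem chk_poly : Poly chk := by
  unfold chk
  fun_prop

theorem chk_iff (M : List (List Bool)) (c s : List Bool) :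
    chk (M, c, s) = true ↔
      Maximal (matGraph M).IsClique {i : Fin M.length | c.getD i false = true} ∧
      Maximal (matGraph M).IsIndepSet {i : Fin M.length | s.getD i false = true} ∧
      ∀ i : Fin M.length, c.getD i false = true → ¬ s.getD i false = true := by
  rw [maximal_iff, maxClique_iff]
  simp only [chk, Bool.and_eq_true, List.all_eq_true, List.any_eq_true, List.mem_range,
    Bool.not_eq_eq_eq_not, Bool.not_true, Bool.or_eq_true, Set.mem_setOf_eq, ← adjM_iff]
  constructor
  · rintro ⟨⟨⟨⟨g1, g2⟩, h1⟩, h2⟩, h3⟩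
    refine ⟨⟨fun a ha b hb hab => ?_, fun x hx => ?_⟩, ⟨fun a ha b hb hab => ?_, fun x hx => ?_⟩,
      fun i hi hi' => ?_⟩
    · have := g1 a a.2 b b.2
      have hab' : decide ((a : ℕ) ≠ b) = true := decide_eq_true (fun e => hab (Fin.ext e))
      rw [ha, hb, hab'] at this
      simpa using this
    · rcases g2 x x.2 with h | ⟨j, hj, h, h'⟩
      · exact absurd h hx
      · exact ⟨⟨j, hj⟩, h, Bool.eq_false_iff.1 h'⟩
    · have := h1 a a.2 b b.2
      rw [ha, hb, hab] at this
      simp at this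
    · rcases h2 x x.2 with h | ⟨j, hj, h, h'⟩
      · exact absurd h hx
      · exact ⟨⟨j, hj⟩, h, h'⟩
    · have := h3 i i.2
      rw [hi, hi'] at this
      simp at this
  · rintro ⟨⟨g1, g2⟩, ⟨h1, h2⟩, h3⟩
    refine ⟨⟨⟨⟨fun a ha b hb => ?_, fun x hx => ?_⟩, fun a ha b hb => ?_⟩, fun x hx => ?_⟩,
      fun i hi => ?_⟩
    · by_contra hcon
      simp only [Bool.not_eq_false, Bool.and_eq_true, decide_eq_true_eq] at hcon
      have := g1 ⟨a, ha⟩ hcon.1.1.1 ⟨b, hb⟩ hcon.1.1.2 (fun e => hcon.1.2 (congrArg Fin.val e))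
      have h5 := hcon.2
      simp only at this
      rw [this] at h5
      simp at h5
    · by_cases hs : c.getD x false = true
      · exact Or.inl hs
      · obtain ⟨y, hy, hy'⟩ := g2 ⟨x, hx⟩ hs
        exact Or.inr ⟨y, y.2, hy, Bool.eq_false_iff.2 hy'⟩
    · by_contra hcon
      simp only [Bool.not_eq_false, Bool.and_eq_true] at hcon
      exact h1 ⟨a, ha⟩ hcon.1.1 ⟨b, hb⟩ hcon.1.2 hcon.2
    · by_cases hs : s.getD x false = true
      · exact Or.inl hs
      · obtain ⟨y, hy, hy'⟩ := h2 ⟨x, hx⟩ hs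
        exact Or.inr ⟨y, y.2, hy, hy'⟩
    · by_contra hcon
      simp only [Bool.not_eq_false, Bool.and_eq_true] at hcon
      exact h3 ⟨i, hi⟩ hcon.1 hcon.2

theorem cis_coNP : InCoNPP (fun M : List (List Bool) => CIS (matGraph M)) := by
  refine inCoNPP_of chk_poly (Polynomial.C 8 * Polynomial.X + Polynomial.C 3) fun M => ?_
  constructor
  · intro h
    classical
    unfold CIS at h
    push Not at h
    obtain ⟨C, S, hC, hS, hno⟩ := h
    have hs : ∀ (S : Set (Fin M.length)) (i : Fin M.length),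
        (List.ofFn (fun i : Fin M.length => decide (i ∈ S))).getD i false = true ↔ i ∈ S := by
      intro S i
      rw [List.getD_eq_getElem?_getD, List.getElem?_eq_getElem (by simp)]
      simp
    refine ⟨(List.ofFn (fun i : Fin M.length => decide (i ∈ C)),
      List.ofFn (fun i : Fin M.length => decide (i ∈ S))), ?_, ?_⟩
    · have h0 := sz_listBool_le (List.ofFn (fun i : Fin M.length => decide (i ∈ C)))
      have h1 := sz_listBool_le (List.ofFn (fun i : Fin M.length => decide (i ∈ S)))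
      have h2 := length_lt_sz M
      simp only [List.length_ofFn] at h0 h1
      simp only [Polynomial.eval_add, Polynomial.eval_mul, Polynomial.eval_C, Polynomial.eval_X,
        sz_pair]
      omega
    · rw [chk_iff]
      simp only [hs]
      refine ⟨hC, hS, fun i hi hi' => ?_⟩
      have : i ∈ C ∩ S := ⟨hi, hi'⟩
      rw [hno] at this
      exact this
  · rintro ⟨⟨c, s⟩, _, hs⟩ h
    rw [chk_iff] at hs
    obtain ⟨hC, hS, hno⟩ := hs
    obtain ⟨k, hk, hk'⟩ := h _ _ hC hS
    exact hno k hk hk'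

end Pool.Agent.H302Z.Cis
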