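import Mathlib

set_option autoImplicit false

namespace Pool.Agent.H302Z.Equi

/-- `S` is a maximal stable set of `G`: a set of pairwise non-adjacent vertices that is not
properly contained in another such set. -/
def IsMaxStable {V : Type} (G : SimpleGraph V) (S : Finset V) : Prop :=
  Maximal (fun T : Finset V => G.IsIndepSet (T : Set V)) S

/-- `G` is strongly equistable: for every nonempty vertex set `T` that is not a maximal stable
set and every real `γ ≤ 1` there are positive vertex weights giving every maximal stable set
total weight `1` and giving `T` a total weight different from `γ`. -/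
def StronglyEquistable {V : Type} (G : SimpleGraph V) : Prop :=
  ∀ T : Finset V, T.Nonempty → ¬ IsMaxStable G T → ∀ γ : ℝ, γ ≤ 1 →
    ∃ φ : V → ℝ, (∀ v, 0 < φ v) ∧ (∀ S : Finset V, IsMaxStable G S → ∑ v ∈ S, φ v = 1) ∧
      ∑ v ∈ T, φ v ≠ γ

/-- The substitution `G[v ← H]`: delete `v` from `G`, add a disjoint copy of `H`, and join every
vertex of the copy to every neighbour of `v` in `G`. -/
def substitute {V W : Type} (G : SimpleGraph V) (v : V) (H : SimpleGraph W) :
    SimpleGraph ({u : V // u ≠ v} ⊕ W) where
  Adj x y :=
    match x, y with
    | Sum.inl a, Sum.inl b => G.Adj a.1 b.1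
    | Sum.inl a, Sum.inr _ => G.Adj a.1 v
    | Sum.inr _, Sum.inl b => G.Adj v b.1
    | Sum.inr a, Sum.inr b => H.Adj a b
  symm := by
    constructor
    rintro (a | a) (b | b) h
    · exact G.adj_symm h
    · exact G.adj_symm h
    · exact G.adj_symm h
    · exact H.adj_symm h
  loopless := by
    constructor
    rintro (a | a) h
    · exact G.irrefl h
    · exact H.irrefl h

end Pool.Agent.H302Z.Equi
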