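import Pool.Agent.H302Z.EqDefs

set_option autoImplicit false

namespace Pool.Agent.H302Z.Equi

open Finset

theorem isMaxStable_iff {V : Type} [DecidableEq V] (G : SimpleGraph V) (S : Finset V) :
    IsMaxStable G S ↔
      (∀ a ∈ S, ∀ b ∈ S, ¬ G.Adj a b) ∧ ∀ x, x ∉ S → ∃ y ∈ S, G.Adj x y := by
  have hind : ∀ T : Finset V, G.IsIndepSet (T : Set V) ↔ ∀ a ∈ T, ∀ b ∈ T, ¬ G.Adj a b := by
    intro T
    constructor
    · intro h a ha b hb hab
      exact h (Finset.mem_coe.2 ha) (Finset.mem_coe.2 hb) (G.ne_of_adj hab) hab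
    · intro h a ha b hb _
      exact h a (Finset.mem_coe.1 ha) b (Finset.mem_coe.1 hb)
  constructor
  · rintro ⟨h1, h2⟩
    refine ⟨(hind S).1 h1, fun x hx => ?_⟩
    by_contra hcon
    push Not at hcon
    have h3 : G.IsIndepSet ((insert x S : Finset V) : Set V) := by
      rw [hind]
      intro a ha b hb
      rw [Finset.mem_insert] at ha hb
      rcases ha with ha | ha <;> rcases hb with hb | hb
      · rw [ha, hb]; exact G.irrefl
      · rw [ha]; exact hcon b hb
      · rw [hb]; exact fun h => hcon a ha h.symm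
      · exact (hind S).1 h1 a ha b hb
    exact hx (h2 h3 (Finset.subset_insert x S) (Finset.mem_insert_self x S))
  · rintro ⟨h1, h2⟩
    refine ⟨(hind S).2 h1, fun T hT hST x hx => ?_⟩
    by_contra hxS
    obtain ⟨y, hy, hxy⟩ := h2 x hxS
    exact (hind T).1 hT x hx y (hST hy) hxy

/-- the edges of the root graph on 17 vertices -/
def edges : List (ℕ × ℕ) :=
  [(0, 1), (0, 5), (2, 5), (1, 7), (2, 7), (3, 5), (3, 7), (4, 5), (4, 7), (0, 6), (2, 6), (3, 6),
   (4, 6), (1, 8), (2, 8), (3, 8), (4, 8), (2, 9), (9, 10), (10, 11), (11, 12), (9, 13), (12, 13),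
   (10, 14), (13, 14), (11, 15), (14, 15), (9, 16), (12, 16), (15, 16)]

def inc (u : Fin 17) (e : Fin 30) : Bool :=
  (edges.getD e.1 (0, 0)).1 == u.1 || (edges.getD e.1 (0, 0)).2 == u.1

def adjB (e f : Fin 30) : Bool :=
  (edges.getD e.1 (0, 0)).1 != (edges.getD f.1 (0, 0)).1 &&
  (edges.getD e.1 (0, 0)).1 != (edges.getD f.1 (0, 0)).2 &&
  (edges.getD e.1 (0, 0)).2 != (edges.getD f.1 (0, 0)).1 &&
  (edges.getD e.1 (0, 0)).2 != (edges.getD f.1 (0, 0)).2

theorem adjB_symm : ∀ e f, adjB e f = true → adjB f e = true := by decide +kernel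
theorem adjB_irrefl : ∀ e, adjB e e = false := by decide +kernel

/-- complement of the line graph of the root graph -/
def G0 : SimpleGraph (Fin 30) where
  Adj e f := adjB e f = true
  symm := ⟨fun e f h => adjB_symm e f h⟩
  loopless := ⟨fun e h => by rw [adjB_irrefl] at h; exact absurd h (by simp)⟩

instance : DecidableRel G0.Adj := fun e f => inferInstanceAs (Decidable (adjB e f = true))

def star (u : Fin 17) : Finset (Fin 30) := univ.filter (fun e => inc u e = true)

theorem star_max (u : Fin 17) : IsMaxStable G0 (star u) := by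
  rw [isMaxStable_iff]
  revert u
  decide +kernel

theorem key1 : ∀ e f : Fin 30, e ≠ f → adjB e f = false →
    ∃ u : Fin 17, ∀ g : Fin 30, adjB g e = false → adjB g f = false → inc u g = true := by
  decide +kernel

theorem key2 : ∀ e : Fin 30, ∃ f : Fin 30, e ≠ f ∧ adjB f e = false := by
  decide +kernel

theorem max_star (S : Finset (Fin 30)) (hS : IsMaxStable G0 S) : ∃ u, S = star u := by
  have hS' := (isMaxStable_iff G0 S).1 hS
  have hne : ∃ e ∈ S, ∃ f ∈ S, e ≠ f := by
    by_contra hcon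
    push Not at hcon
    have h0 : ∃ e, e ∈ S := by
      by_cases h : (0 : Fin 30) ∈ S
      · exact ⟨0, h⟩
      · obtain ⟨y, hy, _⟩ := hS'.2 0 h
        exact ⟨y, hy⟩
    obtain ⟨e, he⟩ := h0
    obtain ⟨f, hef, hf⟩ := key2 e
    by_cases h : f ∈ S
    · exact hef (hcon e he f h)
    · obtain ⟨y, hy, hfy⟩ := hS'.2 f h
      rw [← hcon e he y hy] at hfy
      have : adjB f e = true := hfy
      rw [hf] at this
      exact absurd this (by simp)
  obtain ⟨e, he, f, hf, hef⟩ := hne
  have nb : ∀ a ∈ S, ∀ b ∈ S, adjB a b = false := fun a ha b hb => by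
    have := hS'.1 a ha b hb
    exact Bool.eq_false_iff.2 this
  obtain ⟨u, hu⟩ := key1 e f hef (nb e he f hf)
  have hsub : S ⊆ star u := fun g hg => by
    simp only [star, mem_filter, mem_univ, true_and]
    exact hu g (nb g hg e he) (nb g hg f hf)
  exact ⟨u, Finset.Subset.antisymm hsub (hS.2 (star_max u).1 hsub)⟩

def wts : List ℤ :=
  [6, 9, 3, 9, 3, 6, 6, 6, 6, 9, 3, 6, 6, 9, 3, 6, 6, 12, 2, 14, 2, 2, 14, 8, 8, 8, 8, 8, 8, 8]

def cons : List (List ℤ) :=
  [[0, 0, 1, 0, -1, -1, 1],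
   [0, 0, 1, 0, -1, 0, 0, -1, 1],
   [0, 1, -1, 0, 0, 0, 0, 0, 0, -1, 1],
   [0, 1, 0, 0, 0, -1, 0, 0, 0, -1, 0, 1],
   [0, 1, 0, 0, 0, 0, 0, -1, 0, -1, 0, 0, 1],
   [0, 0, 0, 1, -1, 0, 0, 0, 0, 0, 0, 0, 0, -1, 1],
   [0, 0, 1, 1, -1, -1, 0, 0, 0, 0, 0, 0, 0, -1, 0, 1],
   [0, 0, 1, 1, -1, 0, 0, -1, 0, 0, 0, 0, 0, -1, 0, 0, 1],
   [-1, 1, -1, 1, -1, 0, 0, 0, 0, 0, 0, 0, 0, 0, 0, 0, 0, 2, -1, 1, -1, -1, 1],
   [0, 0, 0, 0, 0, 0, 0, 0, 0, 0, 0, 0, 0, 0, 0, 0, 0, 0, 1, 0, 0, -1, 0, -1, 1],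
   [0, 0, 0, 0, 0, 0, 0, 0, 0, 0, 0, 0, 0, 0, 0, 0, 0, 0, 0, 1, 0, 0, 0, -1, 0, -1, 1],
   [-1, 1, -1, 1, -1, 0, 0, 0, 0, 0, 0, 0, 0, 0, 0, 0, 0, 2, -1, 1, -1, 0, 0, 0, 0, 0, 0, -1, 1],
   [-1, 1, -1, 1, -1, 0, 0, 0, 0, 0, 0, 0, 0, 0, 0, 0, 0, 2, -1, 1, 0, 0, 0, 0, 0, -1, 0, -1, 0, 1]]

def dot : List ℤ → List Bool → ℤ
  | [], _ => 0
  | _, [] => 0
  | c :: cs, b :: bs => (if b then c else 0) + dot cs bs

theorem dot_take (c : List ℤ) : ∀ (X : List Bool) (k : ℕ), c.length ≤ k →
    dot c (X.take k) = dot c X := by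
  induction c with
  | nil => intro X k _; simp [dot]
  | cons a cs ih =>
    intro X k hk
    cases X with
    | nil => simp
    | cons b bs =>
      cases k with
      | zero => simp at hk
      | succ k =>
        simp only [List.take_succ_cons, dot]
        rw [ih bs k (by simpa using hk)]

theorem dot_nonneg (c : List ℤ) (hc : ∀ a ∈ c, 0 ≤ a) : ∀ X : List Bool, 0 ≤ dot c X := by
  induction c with
  | nil => intro X; simp [dot]
  | cons a cs ih =>
    intro X
    cases X with
    | nil => simp [dot]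
    | cons b bs =>
      simp only [dot]
      have h1 := ih (fun x hx => hc x (List.mem_cons_of_mem _ hx)) bs
      have h2 := hc a (List.mem_cons_self)
      split_ifs <;> omega

theorem dot_take_le (c : List ℤ) (hc : ∀ a ∈ c, 0 ≤ a) : ∀ (X : List Bool) (k : ℕ),
    dot c (X.take k) ≤ dot c X := by
  induction c with
  | nil => intro X k; simp [dot]
  | cons a cs ih =>
    intro X k
    cases X with
    | nil => simp
    | cons b bs =>
      cases k with
      | zero =>
        have := dot_nonneg (a :: cs) hc (b :: bs)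
        simpa [dot] using this
      | succ k =>
        simp only [List.take_succ_cons, dot]
        have := ih (fun x hx => hc x (List.mem_cons_of_mem _ hx)) bs k
        omega

theorem dot_ofFn : ∀ (n : ℕ) (c : List ℤ) (x : Fin n → Bool),
    dot c (List.ofFn x) = ∑ i : Fin n, if x i then c.getD i.1 0 else 0 := by
  intro n
  induction n with
  | zero => intro c x; cases c <;> simp [dot]
  | succ n ih =>
    intro c x
    rw [List.ofFn_succ, Fin.sum_univ_succ]
    cases c with
    | nil => simp [dot]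
    | cons a cs =>
      simp only [dot]
      rw [ih]
      simp

def prune (l : List Bool) : Bool :=
  decide (24 < dot wts l) || cons.any (fun c => decide (c.length ≤ l.length) && dot c l != 0)

def fin (l : List Bool) : Bool :=
  l.all (fun b => !b) || (List.finRange 17).any (fun u => l == List.ofFn (inc u))

def go : ℕ → List Bool → Bool
  | 0, l => prune l || fin l
  | k + 1, l => prune l || (go k (l ++ [false]) && go k (l ++ [true]))

theorem go_run : go 30 [] = true := by decide +kernel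

theorem go_sound (X : List Bool) (hp : ∀ j, prune (X.take j) = false) :
    ∀ k j, j + k = X.length → go k (X.take j) = true → fin X = true := by
  intro k
  induction k with
  | zero =>
    intro j hj h
    simp only [go, hp, Bool.false_or] at h
    rwa [List.take_of_length_le (by omega)] at h
  | succ k ih =>
    intro j hj h
    simp only [go, hp, Bool.false_or, Bool.and_eq_true] at h
    have hlt : j < X.length := by omega
    have e : X.take (j + 1) = X.take j ++ [X[j]] := by
      rw [List.take_add_one, List.getElem?_eq_getElem hlt]; rfl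
    apply ih (j + 1) (by omega)
    rw [e]
    cases X[j]
    · exact h.1
    · exact h.2

theorem combinatorial (T : Finset (Fin 30))
    (h1 : ∑ e ∈ T, wts.getD e.1 0 ≤ 24) (h2 : ∀ c ∈ cons, ∑ e ∈ T, c.getD e.1 0 = 0) :
    T = ∅ ∨ ∃ u, T = star u := by
  set x : Fin 30 → Bool := fun e => decide (e ∈ T) with hx
  have hd : ∀ c : List ℤ, dot c (List.ofFn x) = ∑ e ∈ T, c.getD e.1 0 := by
    intro c
    rw [dot_ofFn, ← Finset.sum_filter]
    congr 1
    ext e
    simp [hx]
  have hp : ∀ j, prune ((List.ofFn x).take j) = false := by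
    intro j
    simp only [prune, Bool.or_eq_false_iff, decide_eq_false_iff_not, not_lt, List.any_eq_false,
      Bool.and_eq_true, decide_eq_true_eq, bne_iff_ne, ne_eq, not_and, not_not]
    refine ⟨?_, fun c hc hl => ?_⟩
    · refine (dot_take_le wts (by decide) _ j).trans ?_
      rw [hd]; exact h1
    · have hl' : c.length ≤ j := by
        rw [List.length_take] at hl
        omega
      rw [dot_take c _ j hl', hd]
      exact h2 c hc
  have hf := go_sound (List.ofFn x) hp 30 0 (by simp) (by simpa using go_run)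
  simp only [fin, Bool.or_eq_true, List.all_eq_true, List.any_eq_true, beq_iff_eq] at hf
  rcases hf with hf | ⟨u, _, hu⟩
  · left
    ext e
    have := hf (x e) (List.mem_ofFn.2 ⟨e, rfl⟩)
    simpa [hx] using this
  · right
    refine ⟨u, ?_⟩
    have := List.ofFn_injective hu
    ext e
    have h3 := congrFun this e
    simp only [star, mem_filter, mem_univ, true_and, ← h3, hx, decide_eq_true_eq]

theorem wts_star : ∀ u : Fin 17, ∑ e ∈ star u, wts.getD e.1 0 = 24 := by decide +kernel
theorem cons_star : ∀ c ∈ cons, ∀ u : Fin 17, ∑ e ∈ star u, c.getD e.1 0 = 0 := by decide +kernel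
theorem wts_cons : ∀ c ∈ cons, ∀ e : Fin 30, 0 < 4 * wts.getD e.1 0 + c.getD e.1 0 := by
  decide +kernel
theorem wts_pos : ∀ e : Fin 30, 0 < wts.getD e.1 0 := by decide +kernel

theorem G0_se : StronglyEquistable G0 := by
  intro T hT hT2 γ hγ
  by_contra hcon
  push Not at hcon
  have a1 : ∑ e ∈ T, ((wts.getD e.1 0 : ℤ) : ℝ) / 24 = γ := by
    apply hcon
    · intro e
      have : (0 : ℝ) < ((wts.getD e.1 0 : ℤ) : ℝ) := by exact_mod_cast wts_pos e
      positivity
    · intro S hS
      obtain ⟨u, rfl⟩ := max_star S hS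
      rw [← Finset.sum_div, ← Int.cast_sum, wts_star]
      norm_num
  have a2 : ∀ c ∈ cons, ∑ e ∈ T, ((4 * wts.getD e.1 0 + c.getD e.1 0 : ℤ) : ℝ) / 96 = γ := by
    intro c hc
    apply hcon
    · intro e
      have : (0 : ℝ) < ((4 * wts.getD e.1 0 + c.getD e.1 0 : ℤ) : ℝ) := by
        exact_mod_cast wts_cons c hc e
      positivity
    · intro S hS
      obtain ⟨u, rfl⟩ := max_star S hS
      rw [← Finset.sum_div, ← Int.cast_sum, Finset.sum_add_distrib, ← Finset.mul_sum, wts_star,
        cons_star c hc]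
      norm_num
  rw [← Finset.sum_div, ← Int.cast_sum] at a1
  have b1 : ∑ e ∈ T, wts.getD e.1 0 ≤ 24 := by
    have : ((∑ e ∈ T, wts.getD e.1 0 : ℤ) : ℝ) ≤ 24 := by linarith
    exact_mod_cast this
  have b2 : ∀ c ∈ cons, ∑ e ∈ T, c.getD e.1 0 = 0 := by
    intro c hc
    have h := a2 c hc
    rw [← Finset.sum_div, ← Int.cast_sum, Finset.sum_add_distrib, ← Finset.mul_sum] at h
    push_cast at h a1
    have : ((∑ e ∈ T, c.getD e.1 0 : ℤ) : ℝ) = 0 := by
      push_cast
      linarith
    exact_mod_cast this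
  rcases combinatorial T b1 b2 with h | ⟨u, h⟩
  · exact hT.ne_empty h
  · exact hT2 (h ▸ star_max u)

theorem K2_se : StronglyEquistable (⊤ : SimpleGraph (Fin 2)) := by
  intro T hT hT2 γ hγ
  have hm : ∀ S : Finset (Fin 2), IsMaxStable (⊤ : SimpleGraph (Fin 2)) S ↔ S.card = 1 := by
    intro S
    rw [isMaxStable_iff]
    revert S
    decide
  refine ⟨fun _ => 1, fun _ => one_pos, fun S hS => ?_, ?_⟩
  · simp [(hm S).1 hS]
  · have h1 : T.card ≠ 1 := fun h => hT2 ((hm T).2 h)
    have h2 : 0 < T.card := hT.card_pos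
    have h3 : (2 : ℝ) ≤ T.card := by
      have : 2 ≤ T.card := by omega
      exact_mod_cast this
    simp only [sum_const, nsmul_eq_mul, mul_one]
    linarith

abbrev V1 := {u : Fin 30 // u ≠ 0} ⊕ Fin 2

def G1 : SimpleGraph V1 := substitute G0 0 (⊤ : SimpleGraph (Fin 2))

def adj1 : V1 → V1 → Bool
  | Sum.inl a, Sum.inl b => adjB a.1 b.1
  | Sum.inl a, Sum.inr _ => adjB a.1 0
  | Sum.inr _, Sum.inl b => adjB 0 b.1
  | Sum.inr a, Sum.inr b => decide (a ≠ b)

theorem adj1_iff (x y : V1) : G1.Adj x y ↔ adj1 x y = true := by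
  rcases x with a | a <;> rcases y with b | b
  · rfl
  · rfl
  · rfl
  · simp [G1, substitute, adj1]

def mem1 (u : Fin 17) : V1 → Bool
  | Sum.inl a => inc u a.1
  | Sum.inr j => j.1 == u.1

def star1 (u : Fin 17) : Finset V1 := univ.filter (fun x => mem1 u x = true)

def memT : V1 → Bool
  | Sum.inl a => a.1 == 17
  | Sum.inr _ => true

def T1 : Finset V1 := univ.filter (fun x => memT x = true)

theorem star1_max (u : Fin 17) : IsMaxStable G1 (star1 u) := by
  rw [isMaxStable_iff]
  simp only [adj1_iff, star1, mem_filter, mem_univ, true_and]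
  have h1 : ∀ u : Fin 17, ∀ a : V1, mem1 u a = true → ∀ b : V1, mem1 u b = true →
      adj1 a b = false := by decide +kernel
  have h2 : ∀ u : Fin 17, ∀ x : V1, mem1 u x = false → ∃ y : V1,
      (mem1 u y && adj1 x y) = true := by decide +kernel
  refine ⟨fun a ha b hb => by simp [h1 u a ha b hb], fun x hx => ?_⟩
  obtain ⟨y, hy⟩ := h2 u x (by simpa using hx)
  exact ⟨y, by simpa using hy⟩

theorem T1_not : ¬ IsMaxStable G1 T1 := by
  rw [isMaxStable_iff]
  rintro ⟨h, _⟩
  exact h (Sum.inr 0) (by simp [T1, memT]) (Sum.inr 1) (by simp [T1, memT])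
    ((adj1_iff _ _).2 (by decide))

def cf (u : Fin 17) : ℤ := if u.1 < 5 then 1 else if u.1 < 9 then -1 else 0

theorem ind_eq : ∀ x : V1, (if memT x = true then (1 : ℤ) else 0) =
    ∑ u : Fin 17, cf u * (if mem1 u x = true then (1 : ℤ) else 0) := by decide +kernel

theorem cf_sum : ∑ u : Fin 17, cf u = 1 := by decide +kernel

theorem G1_not : ¬ StronglyEquistable G1 := by
  intro h
  obtain ⟨φ, _, h2, h3⟩ := h T1 ⟨Sum.inr 0, by simp [T1, memT]⟩ T1_not 1 le_rfl
  apply h3
  have e1 : ∀ p : V1 → Bool, ∑ x ∈ univ.filter (fun x => p x = true), φ x =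
      ∑ x, (((if p x = true then (1 : ℤ) else 0) : ℤ) : ℝ) * φ x := by
    intro p
    rw [Finset.sum_filter]
    refine Finset.sum_congr rfl fun x _ => ?_
    split_ifs <;> simp
  have e2 : ∀ u, ∑ x, (((if mem1 u x = true then (1 : ℤ) else 0) : ℤ) : ℝ) * φ x = 1 := by
    intro u
    rw [← e1]
    exact h2 _ (star1_max u)
  rw [T1, e1]
  simp only [ind_eq]
  simp only [Int.cast_sum, Int.cast_mul, Finset.sum_mul, mul_assoc]
  rw [Finset.sum_comm]
  simp only [← Finset.mul_sum, e2, mul_one]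
  exact_mod_cast cf_sum

end Pool.Agent.H302Z.Equi
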