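import Mathlib

set_option autoImplicit false

namespace Pool.Agent.H302Z.Tri

/-- The triangle condition: for every maximal stable set `S` of `G` and every edge `u v` of `G`
with both ends outside `S`, some vertex of `S` is adjacent to both `u` and `v`. -/
def TriangleGraph {V : Type} (G : SimpleGraph V) : Prop :=
  ∀ S : Set V, Maximal G.IsIndepSet S → ∀ u v : V, G.Adj u v → u ∉ S → v ∉ S →
    ∃ s ∈ S, G.Adj s u ∧ G.Adj s v

end Pool.Agent.H302Z.Tri
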